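import Mathlib
import Pool.Agent.R859.QS.Defs

/-!
# Schur functions and Schur-positive sets of permutations; one-column grid classes

The definitions of the descent set `Des`, of Gessel's fundamental quasisymmetric function `fund`,
of `QF` (the quasisymmetric function of a multiset of permutations) and of `IsSymm` are in
`Pool.Agent.R859.QS.Defs`.
-/

set_option autoImplicit false

namespace Pool.Agent.R850.FG

/-- The exponent of the monomial `x^T` of a semistandard tableau. -/
noncomputable def ctab {μ : YoungDiagram} (T : SemistandardYoungTableau μ) : ℕ →₀ ℕ :=
  ∑ c ∈ μ.cells, Finsupp.single (T c.1 c.2) 1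

/-- The Schur function `s_μ` as a power series in the variables `x_0, x_1, …`: the coefficient of a
monomial is the number of the semistandard tableaux of shape `μ` with this monomial. -/
noncomputable def schur (μ : YoungDiagram) : MvPowerSeries ℕ ℤ := fun m =>
  (Nat.card {T : SemistandardYoungTableau μ // ctab T = m} : ℤ)

/-- `f` is a (finite) combination of Schur functions with coefficients in `{0, 1, 2, …}`. -/
def SchurPos (f : MvPowerSeries ℕ ℤ) : Prop :=
  ∃ (s : Finset YoungDiagram) (c : YoungDiagram → ℕ), f = ∑ μ ∈ s, (c μ : ℤ) • schur μ

/-- Fine (Schur-positive) sets of permutations: `𝒬(A)` is symmetric and it is a combination of Schur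
functions with nonnegative integer coefficients. -/
def Fine {n : ℕ} (A : Finset (Equiv.Perm (Fin n))) : Prop :=
  Pool.Agent.R859.QS.IsSymm (Pool.Agent.R859.QS.QF A.val) ∧
    SchurPos (Pool.Agent.R859.QS.QF A.val)

/-- The one-column grid class `G^v_n`: permutations `π` of the `n` values for which the values split
into `k` consecutive intervals, given by the weakly increasing function `f`, such that the values of
the interval number `i` occur in `π` in increasing order (from left to right) if `v i = true` (that
is `+`) and in decreasing order if `v i = false` (that is `-`). `π.symm a` is the position of the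
value `a`. -/
def grid {k : ℕ} (v : Fin k → Bool) (n : ℕ) : Set (Equiv.Perm (Fin n)) :=
  {π | ∃ f : Fin n → Fin k, Monotone f ∧ ∀ a b : Fin n, a < b → f a = f b →
    if v (f a) = true then π.symm a < π.symm b else π.symm b < π.symm a}

open Classical in
/-- The set `{C_n A}` of the permutations `c^j π` with `0 ≤ j < n`, `π ∈ A`, where
`c(i) = i + 1` (modulo `n`), each of them once. -/
noncomputable def rotSet {n : ℕ} (A : Set (Equiv.Perm (Fin n))) : Finset (Equiv.Perm (Fin n)) :=
  Finset.univ.filter fun τ => ∃ j < n, ∃ π ∈ A, τ = finRotate n ^ j * π

end Pool.Agent.R850.FG
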