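import Mathlib

/-! # Young diagrams: row lengths, interlacing, the local rule -/

set_option autoImplicit false

namespace Pool.Agent.R850.FG

open Finset

/-- `μ / ν` is a horizontal strip -/
def IL (ν μ : YoungDiagram) : Prop :=
  ∀ i, μ.rowLen (i + 1) ≤ ν.rowLen i ∧ ν.rowLen i ≤ μ.rowLen i

theorem ext_rowLen {μ ν : YoungDiagram} (h : ∀ i, μ.rowLen i = ν.rowLen i) : μ = ν := by
  apply YoungDiagram.ext
  ext ⟨i, j⟩
  rw [YoungDiagram.mem_cells, YoungDiagram.mem_cells, YoungDiagram.mem_iff_lt_rowLen,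
    YoungDiagram.mem_iff_lt_rowLen, h]

theorem exists_of_fun (f : ℕ → ℕ) (hf : Antitone f) (b : ℕ) (hb : f b = 0) :
    ∃ μ : YoungDiagram, ∀ i, μ.rowLen i = f i := by
  have hz : ∀ i, b ≤ i → f i = 0 := fun i hi => Nat.le_zero.1 (hb ▸ hf hi)
  let μ : YoungDiagram :=
    { cells := ((range b) ×ˢ (range (f 0))).filter fun c => c.2 < f c.1
      isLowerSet := by
        rintro ⟨i, j⟩ ⟨i', j'⟩ hle hmem
        obtain ⟨h1, h2⟩ := Prod.mk_le_mk.1 hle
        rw [mem_coe, mem_filter, mem_product, mem_range, mem_range] at hmem ⊢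
        simp only at hmem ⊢
        have h3 := hf h1
        have h4 : j' < f i' := by omega
        exact ⟨⟨by omega, lt_of_lt_of_le h4 (hf (Nat.zero_le _))⟩, h4⟩ }
  have hmem : ∀ i j, (i, j) ∈ μ ↔ j < f i := by
    intro i j
    rw [← YoungDiagram.mem_cells]
    change (i, j) ∈ ((range b) ×ˢ (range (f 0))).filter (fun c => c.2 < f c.1) ↔ _
    rw [mem_filter, mem_product, mem_range, mem_range]
    simp only
    constructor
    · exact fun h => h.2
    · intro h
      refine ⟨⟨?_, lt_of_lt_of_le h (hf (Nat.zero_le _))⟩, h⟩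
      by_contra hi
      rw [hz i (not_lt.1 hi)] at h
      omega
  refine ⟨μ, fun i => ?_⟩
  have h1 : ∀ j, j < μ.rowLen i ↔ j < f i := fun j => by
    rw [← YoungDiagram.mem_iff_lt_rowLen, hmem]
  have h2 := h1 (μ.rowLen i)
  have h3 := h1 (f i)
  omega

/-- The diagram with given row lengths. -/
noncomputable def mk (f : ℕ → ℕ) : YoungDiagram :=
  open Classical in
  if h : ∃ μ : YoungDiagram, ∀ i, μ.rowLen i = f i then h.choose else ⊥

theorem mk_rowLen (f : ℕ → ℕ) (hf : Antitone f) (b : ℕ) (hb : f b = 0) (i : ℕ) :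
    (mk f).rowLen i = f i := by
  have h := exists_of_fun f hf b hb
  rw [mk, dif_pos h]
  exact h.choose_spec i

theorem rowLen_zero_mono (μ : YoungDiagram) {b c : ℕ} (hb : μ.rowLen b = 0) (h : b ≤ c) :
    μ.rowLen c = 0 := Nat.le_zero.1 (hb ▸ μ.rowLen_anti b c h)

theorem card_eq_sum (μ : YoungDiagram) (b : ℕ) (hb : μ.rowLen b = 0) :
    μ.cells.card = ∑ i ∈ range b, μ.rowLen i := by
  rw [Finset.card_eq_sum_card_fiberwise (f := Prod.fst) (t := range b)]
  · refine Finset.sum_congr rfl fun i _ => ?_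
    rw [YoungDiagram.rowLen_eq_card]
    rfl
  · rintro ⟨i, j⟩ h
    rw [mem_coe, YoungDiagram.mem_cells, YoungDiagram.mem_iff_lt_rowLen] at h
    rw [mem_coe, mem_range]
    by_contra hi
    rw [rowLen_zero_mono μ hb (not_lt.1 hi)] at h
    omega

theorem rowLen_card (μ : YoungDiagram) : μ.rowLen μ.cells.card = 0 := by
  by_contra h
  have h1 : ∀ i ∈ range (μ.cells.card + 1), (i, 0) ∈ μ.cells := by
    intro i hi
    rw [mem_range] at hi
    rw [YoungDiagram.mem_cells, YoungDiagram.mem_iff_lt_rowLen]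
    have := μ.rowLen_anti i μ.cells.card (by omega)
    omega
  have h2 : (range (μ.cells.card + 1)).card ≤ μ.cells.card :=
    Finset.card_le_card_of_injOn (fun i => (i, 0)) h1 (fun a _ b _ hab => by simpa using hab)
  rw [card_range] at h2
  omega

theorem exists_zero (μ : YoungDiagram) : ∃ b, μ.rowLen b = 0 := ⟨_, rowLen_card μ⟩

theorem finite_card (n : ℕ) : {μ : YoungDiagram | μ.cells.card = n}.Finite := by
  have h : Set.Finite ((fun μ : YoungDiagram => μ.cells) ⁻¹'
      (((range n) ×ˢ (range (n + 1))).powerset : Set (Finset (ℕ × ℕ)))) := by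
    apply Set.Finite.preimage
    · intro a _ b _ hab
      exact YoungDiagram.ext hab
    · exact Finset.finite_toSet _
  refine h.subset ?_
  intro μ hμ
  rw [Set.mem_preimage, mem_coe, mem_powerset]
  rintro ⟨i, j⟩ hij
  rw [Set.mem_ofPred_eq] at hμ
  rw [YoungDiagram.mem_cells, YoungDiagram.mem_iff_lt_rowLen] at hij
  rw [mem_product, mem_range, mem_range]
  have hb := rowLen_card μ
  rw [hμ] at hb
  have hi : i < n := by
    by_contra hi
    rw [rowLen_zero_mono μ hb (not_lt.1 hi)] at hij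
    omega
  refine ⟨hi, ?_⟩
  have h1 := card_eq_sum μ n hb
  have h2 : μ.rowLen i ≤ ∑ i ∈ range n, μ.rowLen i :=
    Finset.single_le_sum (f := fun i => μ.rowLen i) (fun _ _ => Nat.zero_le _) (mem_range.2 hi)
  show j < n + 1
  omega

/-- The Young diagrams with `n` cells. -/
noncomputable def YD (n : ℕ) : Finset YoungDiagram := (finite_card n).toFinset

theorem mem_YD {n : ℕ} {μ : YoungDiagram} : μ ∈ YD n ↔ μ.cells.card = n := by
  rw [YD, Set.Finite.mem_toFinset]
  rfl

theorem IL.card_le {ν μ : YoungDiagram} (h : IL ν μ) : ν.cells.card ≤ μ.cells.card := by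
  obtain ⟨b, hb⟩ := exists_zero μ
  have hb' : ν.rowLen b = 0 := Nat.le_zero.1 (hb ▸ (h b).2)
  rw [card_eq_sum μ b hb, card_eq_sum ν b hb']
  exact Finset.sum_le_sum fun i _ => (h i).2

/-- sizes in the local rule -/
theorem size_rule (a μ ν ρ : YoungDiagram) (j : ℕ)
    (h0 : ρ.rowLen 0 = max (a.rowLen 0) (μ.rowLen 0) + j)
    (h : ∀ i, ρ.rowLen (i + 1) + ν.rowLen i =
      max (a.rowLen (i + 1)) (μ.rowLen (i + 1)) + min (a.rowLen i) (μ.rowLen i)) :
    ρ.cells.card + ν.cells.card = a.cells.card + μ.cells.card + j := by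
  obtain ⟨b1, hb1⟩ := exists_zero a
  obtain ⟨b2, hb2⟩ := exists_zero μ
  obtain ⟨b3, hb3⟩ := exists_zero ν
  obtain ⟨b4, hb4⟩ := exists_zero ρ
  set b := b1 + b2 + b3 + b4
  have e1 := card_eq_sum a b (rowLen_zero_mono a hb1 (by omega))
  have e1' := card_eq_sum a (b + 1) (rowLen_zero_mono a hb1 (by omega))
  have e2 := card_eq_sum μ b (rowLen_zero_mono μ hb2 (by omega))
  have e2' := card_eq_sum μ (b + 1) (rowLen_zero_mono μ hb2 (by omega))
  have e3 := card_eq_sum ν b (rowLen_zero_mono ν hb3 (by omega))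
  have e4 := card_eq_sum ρ (b + 1) (rowLen_zero_mono ρ hb4 (by omega))
  rw [Finset.sum_range_succ'] at e4
  have e5 : (∑ i ∈ range b, ρ.rowLen (i + 1)) + ∑ i ∈ range b, ν.rowLen i =
      (∑ i ∈ range b, max (a.rowLen (i + 1)) (μ.rowLen (i + 1))) +
        ∑ i ∈ range b, min (a.rowLen i) (μ.rowLen i) := by
    rw [← Finset.sum_add_distrib, ← Finset.sum_add_distrib]
    exact Finset.sum_congr rfl fun i _ => h i
  have e6 : (∑ i ∈ range b, max (a.rowLen (i + 1)) (μ.rowLen (i + 1))) +
      max (a.rowLen 0) (μ.rowLen 0) = ∑ i ∈ range b, max (a.rowLen i) (μ.rowLen i) := by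
    rw [← Finset.sum_range_succ' (fun i => max (a.rowLen i) (μ.rowLen i)),
      Finset.sum_range_succ, rowLen_zero_mono a hb1 (c := b) (by omega),
      rowLen_zero_mono μ hb2 (c := b) (by omega)]
    simp
  have e7 : (∑ i ∈ range b, max (a.rowLen i) (μ.rowLen i)) +
      ∑ i ∈ range b, min (a.rowLen i) (μ.rowLen i) =
      (∑ i ∈ range b, a.rowLen i) + ∑ i ∈ range b, μ.rowLen i := by
    rw [← Finset.sum_add_distrib, ← Finset.sum_add_distrib]
    exact Finset.sum_congr rfl fun i _ => by omega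
  omega

/-- the local rule, downwards -/
noncomputable def dn (a μ ρ : YoungDiagram) : YoungDiagram :=
  mk fun i => max (a.rowLen (i + 1)) (μ.rowLen (i + 1)) + min (a.rowLen i) (μ.rowLen i) -
    ρ.rowLen (i + 1)

/-- the local rule, upwards -/
noncomputable def up (a μ ν : YoungDiagram) (j : ℕ) : YoungDiagram :=
  mk fun i => match i with
    | 0 => max (a.rowLen 0) (μ.rowLen 0) + j
    | i + 1 => max (a.rowLen (i + 1)) (μ.rowLen (i + 1)) + min (a.rowLen i) (μ.rowLen i) -
        ν.rowLen i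

theorem dn_rowLen {a μ ρ : YoungDiagram} (h1 : IL a ρ) (h2 : IL μ ρ) (i : ℕ) :
    (dn a μ ρ).rowLen i + ρ.rowLen (i + 1) =
      max (a.rowLen (i + 1)) (μ.rowLen (i + 1)) + min (a.rowLen i) (μ.rowLen i) := by
  have key : ∀ i, max (a.rowLen (i + 1)) (μ.rowLen (i + 1)) ≤ ρ.rowLen (i + 1) ∧
      ρ.rowLen (i + 1) ≤ min (a.rowLen i) (μ.rowLen i) := by
    intro i
    have := h1 i
    have := h1 (i + 1)
    have := h2 i
    have := h2 (i + 1)
    omega
  have hanti : Antitone fun i => max (a.rowLen (i + 1)) (μ.rowLen (i + 1)) +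
      min (a.rowLen i) (μ.rowLen i) - ρ.rowLen (i + 1) := by
    apply antitone_nat_of_succ_le
    intro i
    have := key i
    have := key (i + 1)
    have := a.rowLen_anti (i + 1) (i + 1 + 1) (by omega)
    have := μ.rowLen_anti (i + 1) (i + 1 + 1) (by omega)
    omega
  obtain ⟨b, hb⟩ := exists_zero a
  rw [dn, mk_rowLen _ hanti b]
  · have := key i
    omega
  · have := key b
    have := a.rowLen_anti b (b + 1) (by omega)
    omega

theorem up_rowLen {a μ ν : YoungDiagram} (h1 : IL ν a) (h2 : IL ν μ) (j : ℕ) :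
    (up a μ ν j).rowLen 0 = max (a.rowLen 0) (μ.rowLen 0) + j ∧
    ∀ i, (up a μ ν j).rowLen (i + 1) + ν.rowLen i =
      max (a.rowLen (i + 1)) (μ.rowLen (i + 1)) + min (a.rowLen i) (μ.rowLen i) := by
  have key : ∀ i, max (a.rowLen (i + 1)) (μ.rowLen (i + 1)) ≤ ν.rowLen i ∧
      ν.rowLen i ≤ min (a.rowLen i) (μ.rowLen i) := by
    intro i
    have := h1 i
    have := h2 i
    omega
  have hanti : Antitone fun i : ℕ => (match i with
    | 0 => max (a.rowLen 0) (μ.rowLen 0) + j
    | i + 1 => max (a.rowLen (i + 1)) (μ.rowLen (i + 1)) + min (a.rowLen i) (μ.rowLen i) -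
        ν.rowLen i : ℕ) := by
    apply antitone_nat_of_succ_le
    intro i
    have k1 := key i
    rcases i with _ | i
    · simp only
      omega
    · have := key (i + 1)
      have := key i
      simp only
      omega
  obtain ⟨b, hb⟩ := exists_zero a
  have hz : (match b + 1 with
    | 0 => max (a.rowLen 0) (μ.rowLen 0) + j
    | i + 1 => max (a.rowLen (i + 1)) (μ.rowLen (i + 1)) + min (a.rowLen i) (μ.rowLen i) -
        ν.rowLen i : ℕ) = 0 := by
    simp only
    have := key b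
    omega
  constructor
  · rw [up, mk_rowLen _ hanti (b + 1) hz]
  · intro i
    rw [up, mk_rowLen _ hanti (b + 1) hz]
    have := key i
    simp only
    omega

theorem dn_IL {a μ ρ : YoungDiagram} (h1 : IL a ρ) (h2 : IL μ ρ) :
    IL (dn a μ ρ) a ∧ IL (dn a μ ρ) μ := by
  have key : ∀ i, max (a.rowLen (i + 1)) (μ.rowLen (i + 1)) ≤ (dn a μ ρ).rowLen i ∧
      (dn a μ ρ).rowLen i ≤ min (a.rowLen i) (μ.rowLen i) := by
    intro i
    have := dn_rowLen h1 h2 i
    have := h1 i
    have := h1 (i + 1)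
    have := h2 i
    have := h2 (i + 1)
    omega
  constructor
  · intro i
    have := key i
    omega
  · intro i
    have := key i
    omega

theorem up_IL {a μ ν : YoungDiagram} (h1 : IL ν a) (h2 : IL ν μ) (j : ℕ) :
    IL a (up a μ ν j) ∧ IL μ (up a μ ν j) := by
  obtain ⟨e0, e⟩ := up_rowLen h1 h2 j
  have key : ∀ i, max (a.rowLen i) (μ.rowLen i) ≤ (up a μ ν j).rowLen i ∧
      (up a μ ν j).rowLen (i + 1) ≤ min (a.rowLen i) (μ.rowLen i) := by
    intro i
    have k1 := e i
    have := h1 i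
    have := h2 i
    rcases i with _ | i
    · omega
    · have := e i
      have := h1 i
      have := h2 i
      omega
  constructor
  · intro i
    have := key i
    omega
  · intro i
    have := key i
    omega

theorem up_dn {a μ ρ : YoungDiagram} (h1 : IL a ρ) (h2 : IL μ ρ) :
    up a μ (dn a μ ρ) (ρ.rowLen 0 - max (a.rowLen 0) (μ.rowLen 0)) = ρ := by
  obtain ⟨k1, k2⟩ := dn_IL h1 h2
  obtain ⟨e0, e⟩ := up_rowLen k1 k2 (ρ.rowLen 0 - max (a.rowLen 0) (μ.rowLen 0))
  apply ext_rowLen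
  intro i
  rcases i with _ | i
  · have := h1 0
    have := h2 0
    omega
  · have := e i
    have := dn_rowLen h1 h2 i
    omega

theorem dn_up {a μ ν : YoungDiagram} (h1 : IL ν a) (h2 : IL ν μ) (j : ℕ) :
    dn a μ (up a μ ν j) = ν := by
  obtain ⟨k1, k2⟩ := up_IL h1 h2 j
  apply ext_rowLen
  intro i
  have := (up_rowLen h1 h2 j).2 i
  have := dn_rowLen k1 k2 i
  omega

theorem dn_size {a μ ρ : YoungDiagram} (h1 : IL a ρ) (h2 : IL μ ρ) :
    ρ.cells.card + (dn a μ ρ).cells.card = a.cells.card + μ.cells.card +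
      (ρ.rowLen 0 - max (a.rowLen 0) (μ.rowLen 0)) := by
  apply size_rule
  · have := h1 0
    have := h2 0
    omega
  · intro i
    have := dn_rowLen h1 h2 i
    omega

theorem up_size {a μ ν : YoungDiagram} (h1 : IL ν a) (h2 : IL ν μ) (j : ℕ) :
    (up a μ ν j).cells.card + ν.cells.card = a.cells.card + μ.cells.card + j :=
  size_rule _ _ _ _ _ (up_rowLen h1 h2 j).1 (up_rowLen h1 h2 j).2

end Pool.Agent.R850.FG
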