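import Mathlib
import Pool.Agent.R850.FG.Shape

/-! # Adding and removing horizontal strips -/

set_option autoImplicit false

namespace Pool.Agent.R850.FG

open Finset

/-- The diagrams `ν` such that `ρ / ν` is a horizontal strip. -/
noncomputable def below (ρ : YoungDiagram) : Finset YoungDiagram :=
  open Classical in
  ((range (ρ.cells.card + 1)).biUnion YD).filter fun ν => IL ν ρ

theorem mem_below {ν ρ : YoungDiagram} : ν ∈ below ρ ↔ IL ν ρ := by
  classical
  rw [below, mem_filter, mem_biUnion]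
  constructor
  · exact fun h => h.2
  · intro h
    exact ⟨⟨ν.cells.card, mem_range.2 (Nat.lt_succ_of_le h.card_le), mem_YD.2 rfl⟩, h⟩

/-- Adding a horizontal strip with `a` cells. -/
noncomputable def U (a : ℤ) (f : YoungDiagram → ℤ) (ρ : YoungDiagram) : ℤ :=
  ∑ ν ∈ below ρ with (ν.cells.card : ℤ) + a = ρ.cells.card, f ν

open Classical in
/-- Removing a horizontal strip with `b` cells. -/
noncomputable def D (b : ℕ) (f : YoungDiagram → ℤ) (μ : YoungDiagram) : ℤ :=
  ∑ ρ ∈ YD (μ.cells.card + b) with IL μ ρ, f ρ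

theorem D_U (b : ℕ) (a : ℤ) (f : YoungDiagram → ℤ) (μ : YoungDiagram) :
    D b (U a f) μ = ∑ p ∈ antidiagonal b, U (a - p.1) (D p.2 f) μ := by
  classical
  unfold D U
  rw [Finset.sum_sigma']
  simp_rw [Finset.sum_sigma']
  refine Finset.sum_bij'
    (fun x _ => ⟨(x.1.rowLen 0 - max (x.2.rowLen 0) (μ.rowLen 0),
      b - (x.1.rowLen 0 - max (x.2.rowLen 0) (μ.rowLen 0))), ⟨dn x.2 μ x.1, x.2⟩⟩)
    (fun x _ => ⟨up x.2.2 μ x.2.1 x.1.1, x.2.2⟩) ?_ ?_ ?_ ?_ ?_
  · rintro ⟨ρ, l⟩ hx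
    simp only [mem_sigma, mem_filter, mem_YD, mem_below, HasAntidiagonal.mem_antidiagonal] at hx ⊢
    obtain ⟨⟨h1, h2⟩, h3, h4⟩ := hx
    have h5 := dn_size h3 h2
    obtain ⟨h6, h7⟩ := dn_IL h3 h2
    have h8 := h6.card_le
    refine ⟨by omega, ⟨h7, by omega⟩, by omega, h6⟩
  · rintro ⟨⟨j, b'⟩, ν, l⟩ hx
    simp only [mem_sigma, mem_filter, mem_YD, mem_below, HasAntidiagonal.mem_antidiagonal] at hx ⊢
    obtain ⟨h0, ⟨h1, h2⟩, h3, h4⟩ := hx
    have h5 := up_size h4 h1 j
    obtain ⟨h6, h7⟩ := up_IL h4 h1 j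
    refine ⟨⟨by omega, h7⟩, h6, by omega⟩
  · rintro ⟨ρ, l⟩ hx
    simp only [mem_sigma, mem_filter, mem_YD, mem_below] at hx
    obtain ⟨⟨h1, h2⟩, h3, h4⟩ := hx
    simp only [up_dn h3 h2]
  · rintro ⟨⟨j, b'⟩, ν, l⟩ hx
    simp only [mem_sigma, mem_filter, mem_YD, mem_below, HasAntidiagonal.mem_antidiagonal] at hx
    obtain ⟨h0, ⟨h1, h2⟩, h3, h4⟩ := hx
    have h5 := (up_rowLen h4 h1 j).1
    have h6 : (up l μ ν j).rowLen 0 - max (l.rowLen 0) (μ.rowLen 0) = j := by omega
    have h7 : b - j = b' := by omega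
    simp only [dn_up h4 h1 j, h6, h7]
  · rintro ⟨ρ, l⟩ _
    rfl

theorem U_sum {ι : Type} (s : Finset ι) (a : ℤ) (f : ι → YoungDiagram → ℤ) (ρ : YoungDiagram) :
    U a (fun ν => ∑ i ∈ s, f i ν) ρ = ∑ i ∈ s, U a (f i) ρ := by
  unfold U
  exact Finset.sum_comm

/-- The number of chains of horizontal strips with sizes `m 0, …, m (N - 1)`. -/
noncomputable def KK (m : ℕ → ℤ) : ℕ → YoungDiagram → ℤ
  | 0 => fun μ => open Classical in if μ = ⊥ then 1 else 0
  | N + 1 => U (m N) (KK m N)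

theorem KK_zero_bot (m : ℕ → ℤ) : KK m 0 ⊥ = 1 := if_pos rfl

theorem KK_zero_ne (m : ℕ → ℤ) {μ : YoungDiagram} (h : μ ≠ ⊥) : KK m 0 μ = 0 := if_neg h

theorem KK_congr (m m' : ℕ → ℤ) (N : ℕ) (h : ∀ i < N, m i = m' i) : KK m N = KK m' N := by
  induction N with
  | zero => rfl
  | succ N ih =>
    rw [KK, KK, ih fun i hi => h i (by omega), h N (by omega)]

theorem card_eq_zero_iff' {μ : YoungDiagram} : μ.cells.card = 0 ↔ μ = ⊥ := by
  rw [Finset.card_eq_zero]
  constructor
  · intro h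
    apply YoungDiagram.ext
    rw [h]
    rfl
  · rintro rfl
    rfl

theorem IL_bot_bot : IL ⊥ ⊥ := by
  intro i
  have h : (⊥ : YoungDiagram).rowLen (i + 1) = 0 := by
    by_contra h
    have h1 : (i + 1, 0) ∈ (⊥ : YoungDiagram) :=
      YoungDiagram.mem_iff_lt_rowLen.2 (by omega)
    exact YoungDiagram.notMem_bot _ h1
  omega

theorem D_KK (m : ℕ → ℤ) (N : ℕ) (a : ℕ) (μ : YoungDiagram) :
    D a (KK m N) μ = ∑ c ∈ (range N).piAntidiag a, KK (fun i => m i - c i) N μ := by
  classical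
  induction N generalizing a μ m with
  | zero =>
    have e : range 0 = ∅ := rfl
    rw [e, piAntidiag_empty]
    unfold D
    by_cases ha : a = 0
    · subst ha
      rw [if_pos rfl, sum_singleton, add_zero]
      by_cases hμ : μ = ⊥
      · subst hμ
        rw [KK_zero_bot, Finset.sum_eq_single ⊥]
        · rw [KK_zero_bot]
        · intro b _ hb
          rw [KK_zero_ne _ hb]
        · intro h
          exact absurd (mem_filter.2 ⟨mem_YD.2 rfl, IL_bot_bot⟩) h
      · rw [KK_zero_ne _ hμ]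
        refine Finset.sum_eq_zero fun ρ hρ => ?_
        rw [mem_filter, mem_YD] at hρ
        apply KK_zero_ne
        rintro rfl
        apply hμ
        rw [← card_eq_zero_iff', ← hρ.1]
        rfl
    · rw [if_neg ha, sum_empty]
      refine Finset.sum_eq_zero fun ρ hρ => ?_
      rw [mem_filter, mem_YD] at hρ
      apply KK_zero_ne
      rintro rfl
      have h1 : (⊥ : YoungDiagram).cells.card = 0 := rfl
      omega
  | succ N ih =>
    have e : range (N + 1) = Finset.cons N (range N) Finset.notMem_range_self := by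
      rw [Finset.cons_eq_insert, Finset.range_add_one]
    rw [e, piAntidiag_cons, Finset.sum_disjiUnion, KK, D_U]
    refine Finset.sum_congr rfl fun p hp => ?_
    rw [Finset.sum_map]
    have h1 : D p.2 (KK m N) = fun ν => ∑ c ∈ (range N).piAntidiag p.2,
        KK (fun i => m i - c i) N ν := by
      funext ν
      exact ih m p.2 ν
    rw [h1, U_sum]
    refine Finset.sum_congr rfl fun c hc => ?_
    rw [mem_piAntidiag] at hc
    have hcN : c N = 0 := by
      by_contra h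
      exact absurd (hc.2 N h) Finset.notMem_range_self
    rw [KK]
    have e1 : (m N - ((addRightEmbedding fun t => if t = N then p.1 else 0) c N : ℕ) : ℤ) =
        m N - p.1 := by
      simp [addRightEmbedding_apply, hcN]
    have e2 : KK (fun i => m i - c i) N = KK (fun i => m i -
        ((addRightEmbedding fun t => if t = N then p.1 else 0) c i : ℕ)) N := by
      apply KK_congr
      intro i hi
      have : i ≠ N := by omega
      simp [addRightEmbedding_apply, this]
    rw [e1, e2]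

/-- adjointness -/
theorem sum_U_mul (n a : ℕ) (f g : YoungDiagram → ℤ) :
    ∑ ρ ∈ YD (n + a), U a f ρ * g ρ = ∑ ν ∈ YD n, f ν * D a g ν := by
  classical
  unfold U D
  simp_rw [Finset.sum_mul, Finset.mul_sum]
  rw [Finset.sum_sigma', Finset.sum_sigma']
  refine Finset.sum_bij' (fun x _ => ⟨x.2, x.1⟩) (fun x _ => ⟨x.2, x.1⟩) ?_ ?_ ?_ ?_ ?_
  · rintro ⟨ρ, ν⟩ hx
    simp only [mem_sigma, mem_filter, mem_YD, mem_below] at hx ⊢
    obtain ⟨h1, h2, h3⟩ := hx
    exact ⟨by omega, by omega, h2⟩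
  · rintro ⟨ρ, ν⟩ hx
    simp only [mem_sigma, mem_filter, mem_YD, mem_below] at hx ⊢
    obtain ⟨h1, h2, h3⟩ := hx
    exact ⟨by omega, h3, by omega⟩
  · rintro ⟨ρ, ν⟩ _
    rfl
  · rintro ⟨ρ, ν⟩ _
    rfl
  · rintro ⟨ρ, ν⟩ _
    rfl

end Pool.Agent.R850.FG
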