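import Mathlib
import Pool.Agent.R850.FG.Op
import Pool.Agent.R850.FG.Defs

/-! # The coefficients of Schur functions -/

set_option autoImplicit false

namespace Pool.Agent.R850.FG

open Finset

theorem ctab_apply {μ : YoungDiagram} (T : SemistandardYoungTableau μ) (x : ℕ) :
    ctab T x = (μ.cells.filter fun c => T c.1 c.2 = x).card := by
  classical
  rw [ctab, Finsupp.finsetSum_apply, Finset.card_filter]
  refine Finset.sum_congr rfl fun c _ => ?_
  rw [Finsupp.single_apply]

theorem ctab_pos {μ : YoungDiagram} (T : SemistandardYoungTableau μ) {i j : ℕ} (h : (i, j) ∈ μ) :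
    ctab T (T i j) ≠ 0 := by
  rw [ctab_apply]
  apply ne_of_gt
  rw [Finset.card_pos]
  exact ⟨(i, j), mem_filter.2 ⟨h, rfl⟩⟩

/-- The cells with entry less than `N`. -/
def sub {μ : YoungDiagram} (T : SemistandardYoungTableau μ) (N : ℕ) : YoungDiagram where
  cells := μ.cells.filter fun c => T c.1 c.2 < N
  isLowerSet := by
    rintro ⟨i, j⟩ ⟨i', j'⟩ hle hmem
    obtain ⟨h1, h2⟩ := Prod.mk_le_mk.1 hle
    rw [mem_coe, mem_filter] at hmem ⊢
    obtain ⟨h3, h4⟩ := hmem
    have h5 : (i', j) ∈ μ := μ.up_left_mem h1 le_rfl h3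
    refine ⟨μ.up_left_mem h1 h2 h3, ?_⟩
    have h6 := T.row_weak_of_le h2 h5
    have h7 := T.col_weak h1 h3
    show T i' j' < N
    have h8 : T i j < N := h4
    omega

theorem mem_sub {μ : YoungDiagram} (T : SemistandardYoungTableau μ) (N : ℕ) (i j : ℕ) :
    (i, j) ∈ sub T N ↔ (i, j) ∈ μ ∧ T i j < N := by
  rw [← YoungDiagram.mem_cells, sub, mem_filter]
  rfl

theorem mem_of_sub_eq {μ ν : YoungDiagram} (T : SemistandardYoungTableau μ) (N : ℕ)
    (h : sub T N = ν) (i j : ℕ) : (i, j) ∈ ν ↔ (i, j) ∈ μ ∧ T i j < N := by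
  subst h
  exact mem_sub T N i j

theorem sub_IL {μ : YoungDiagram} (T : SemistandardYoungTableau μ) (N : ℕ)
    (hT : ∀ i j, (i, j) ∈ μ → T i j ≤ N) : IL (sub T N) μ := by
  intro i
  constructor
  · by_contra h
    have h1 : (i + 1, (sub T N).rowLen i) ∈ μ := YoungDiagram.mem_iff_lt_rowLen.2 (by omega)
    have h2 := T.col_strict (i1 := i) (i2 := i + 1) (by omega) h1
    have h3 := hT _ _ h1
    have h4 : (i, (sub T N).rowLen i) ∈ sub T N :=
      (mem_sub T N _ _).2 ⟨μ.up_left_mem (Nat.le_succ i) le_rfl h1, by omega⟩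
    rw [YoungDiagram.mem_iff_lt_rowLen] at h4
    omega
  · by_contra h
    have h1 : (i, μ.rowLen i) ∈ sub T N := YoungDiagram.mem_iff_lt_rowLen.2 (by omega)
    have h2 := ((mem_sub T N _ _).1 h1).1
    rw [YoungDiagram.mem_iff_lt_rowLen] at h2
    omega

theorem sub_card {μ : YoungDiagram} (T : SemistandardYoungTableau μ) (N : ℕ)
    (hT : ∀ i j, (i, j) ∈ μ → T i j ≤ N) : (sub T N).cells.card + ctab T N = μ.cells.card := by
  rw [ctab_apply]
  have h1 : (sub T N).cells = μ.cells.filter fun c => T c.1 c.2 < N := rfl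
  have h2 : (μ.cells.filter fun c => T c.1 c.2 = N) = μ.cells.filter fun c => ¬ T c.1 c.2 < N := by
    refine Finset.filter_congr fun c hc => ?_
    have := hT c.1 c.2 hc
    omega
  rw [h1, h2, Finset.card_filter_add_card_filter_not]

theorem IL.mem {ν μ : YoungDiagram} (h : IL ν μ) {i j : ℕ} (hij : (i, j) ∈ ν) : (i, j) ∈ μ := by
  rw [YoungDiagram.mem_iff_lt_rowLen] at hij ⊢
  have := (h i).2
  omega

theorem IL.mem_lt {ν μ : YoungDiagram} (h : IL ν μ) {i i' j : ℕ} (hii : i < i')
    (hij : (i', j) ∈ μ) : (i, j) ∈ ν := by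
  rw [YoungDiagram.mem_iff_lt_rowLen] at hij ⊢
  have := (h i).1
  have := μ.rowLen_anti (i + 1) i' hii
  omega

open Classical in
/-- Restriction of a tableau. -/
def restr {μ ν : YoungDiagram} (h : ∀ i j, (i, j) ∈ ν → (i, j) ∈ μ)
    (T : SemistandardYoungTableau μ) : SemistandardYoungTableau ν where
  entry i j := if (i, j) ∈ ν then T i j else 0
  row_weak' := by
    intro i j1 j2 hj hc
    rw [if_pos hc, if_pos (ν.up_left_mem le_rfl hj.le hc)]
    exact T.row_weak hj (h _ _ hc)
  col_strict' := by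
    intro i1 i2 j hi hc
    rw [if_pos hc, if_pos (ν.up_left_mem hi.le le_rfl hc)]
    exact T.col_strict hi (h _ _ hc)
  zeros' := fun hc => if_neg hc

open Classical in
/-- Extension of a tableau by cells with entry `N`. -/
def extend {μ ν : YoungDiagram} (N : ℕ) (h : IL ν μ) (T : SemistandardYoungTableau ν)
    (hT : ∀ i j, (i, j) ∈ ν → T i j < N) : SemistandardYoungTableau μ where
  entry i j := if (i, j) ∈ ν then T i j else if (i, j) ∈ μ then N else 0
  row_weak' := by
    intro i j1 j2 hj hc
    by_cases h2 : (i, j2) ∈ ν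
    · rw [if_pos h2, if_pos (ν.up_left_mem le_rfl hj.le h2)]
      exact T.row_weak hj h2
    · rw [if_neg h2, if_pos hc]
      by_cases h1 : (i, j1) ∈ ν
      · rw [if_pos h1]
        exact (hT _ _ h1).le
      · rw [if_neg h1]
        split_ifs <;> omega
  col_strict' := by
    intro i1 i2 j hi hc
    have h1 : (i1, j) ∈ ν := h.mem_lt hi hc
    rw [if_pos h1]
    by_cases h2 : (i2, j) ∈ ν
    · rw [if_pos h2]
      exact T.col_strict hi h2
    · rw [if_neg h2, if_pos hc]
      exact hT _ _ h1
  zeros' := by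
    intro i j hc
    rw [if_neg (fun h1 => hc (h.mem h1)), if_neg hc]

theorem restr_apply {μ ν : YoungDiagram} (h : ∀ i j, (i, j) ∈ ν → (i, j) ∈ μ)
    (T : SemistandardYoungTableau μ) {i j : ℕ} (hc : (i, j) ∈ ν) : restr h T i j = T i j :=
  if_pos hc

theorem extend_apply {μ ν : YoungDiagram} (N : ℕ) (h : IL ν μ) (T : SemistandardYoungTableau ν)
    (hT : ∀ i j, (i, j) ∈ ν → T i j < N) {i j : ℕ} (hc : (i, j) ∈ ν) :
    extend N h T hT i j = T i j := if_pos hc

theorem extend_apply' {μ ν : YoungDiagram} (N : ℕ) (h : IL ν μ) (T : SemistandardYoungTableau ν)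
    (hT : ∀ i j, (i, j) ∈ ν → T i j < N) {i j : ℕ} (hc : (i, j) ∉ ν) (hc' : (i, j) ∈ μ) :
    extend N h T hT i j = N := (if_neg hc).trans (if_pos hc')

theorem ctab_restr {μ : YoungDiagram} (T : SemistandardYoungTableau μ) (N : ℕ)
    (hT : ∀ i j, (i, j) ∈ μ → T i j ≤ N) (ν : YoungDiagram) (h : ∀ i j, (i, j) ∈ ν → (i, j) ∈ μ)
    (hν : ∀ i j, (i, j) ∈ μ → ((i, j) ∈ ν ↔ T i j < N)) :
    ctab (restr h T) = (ctab T).erase N := by
  classical
  ext x
  rw [Finsupp.erase_apply, ctab_apply, ctab_apply]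
  split_ifs with hx
  · subst hx
    rw [Finset.card_eq_zero, Finset.filter_eq_empty_iff]
    rintro ⟨i, j⟩ hc
    simp only
    rw [YoungDiagram.mem_cells] at hc
    rw [restr_apply h T hc]
    have := (hν i j (h i j hc)).1 hc
    omega
  · congr 1
    ext ⟨i, j⟩
    rw [mem_filter, mem_filter, YoungDiagram.mem_cells, YoungDiagram.mem_cells]
    simp only
    constructor
    · rintro ⟨h1, h2⟩
      rw [restr_apply h T h1] at h2
      exact ⟨h i j h1, h2⟩
    · rintro ⟨h1, h2⟩
      have h3 : (i, j) ∈ ν := by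
        rw [hν i j h1]
        have := hT i j h1
        omega
      exact ⟨h3, by rw [restr_apply h T h3]; exact h2⟩

theorem ctab_lt {μ : YoungDiagram} (T : SemistandardYoungTableau μ) (m : ℕ →₀ ℕ) (hm : ctab T = m)
    (N : ℕ) (hN : ∀ x, N ≤ x → m x = 0) {i j : ℕ} (h : (i, j) ∈ μ) : T i j < N := by
  by_contra hlt
  have h1 := ctab_pos T h
  rw [hm] at h1
  exact h1 (hN _ (not_lt.1 hlt))

open Classical in
/-- the tableaux with given largest cells -/
noncomputable def fibEquiv {μ ν : YoungDiagram} (m : ℕ →₀ ℕ) (N : ℕ) (hN : ∀ x, N + 1 ≤ x → m x = 0)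
    (hν : IL ν μ) (hc : ν.cells.card + m N = μ.cells.card) :
    {T : SemistandardYoungTableau μ // ctab T = m ∧ sub T N = ν} ≃
      {T : SemistandardYoungTableau ν // ctab T = m.erase N} := by
  have hN' : ∀ x, N ≤ x → m.erase N x = 0 := by
    intro x hx
    rw [Finsupp.erase_apply]
    split_ifs with h
    · rfl
    · exact hN x (by omega)
  exact
  { toFun := fun T => ⟨restr (fun i j => hν.mem) T.1, by
      have hT : ∀ i j, (i, j) ∈ μ → T.1 i j ≤ N := fun i j h =>
        Nat.le_of_lt_succ (ctab_lt T.1 m T.2.1 (N + 1) hN h)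
      rw [ctab_restr T.1 N hT ν _ (fun i j h => ?_), T.2.1]
      rw [mem_of_sub_eq T.1 N T.2.2]
      exact and_iff_right h⟩
    invFun := fun T => ⟨extend N hν T.1 (fun i j h => ctab_lt T.1 _ T.2 N hN' h), by
      have hT : ∀ i j, (i, j) ∈ ν → T.1 i j < N := fun i j h => ctab_lt T.1 _ T.2 N hN' h
      have hsub : sub (extend N hν T.1 hT) N = ν := by
        apply YoungDiagram.ext
        ext ⟨i, j⟩
        rw [YoungDiagram.mem_cells, YoungDiagram.mem_cells, mem_sub]
        constructor
        · rintro ⟨h1, h2⟩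
          by_contra h3
          rw [extend_apply' N hν T.1 hT h3 h1] at h2
          omega
        · intro h1
          refine ⟨hν.mem h1, ?_⟩
          rw [extend_apply N hν T.1 hT h1]
          exact hT i j h1
      have hle : ∀ i j, (i, j) ∈ μ → extend N hν T.1 hT i j ≤ N := by
        intro i j h
        by_cases h1 : (i, j) ∈ ν
        · rw [extend_apply N hν T.1 hT h1]
          exact (hT i j h1).le
        · rw [extend_apply' N hν T.1 hT h1 h]
      refine ⟨?_, hsub⟩
      have h1 := ctab_restr (extend N hν T.1 hT) N hle ν (fun i j => hν.mem) (fun i j h => by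
        rw [mem_of_sub_eq _ N hsub]
        exact and_iff_right h)
      have h2 : restr (fun i j => hν.mem) (extend N hν T.1 hT) = T.1 := by
        ext i j
        by_cases h3 : (i, j) ∈ ν
        · rw [restr_apply _ _ h3, extend_apply N hν T.1 hT h3]
        · rw [SemistandardYoungTableau.zeros _ h3, SemistandardYoungTableau.zeros _ h3]
      rw [h2, T.2] at h1
      have h3 := sub_card _ N hle
      rw [hsub] at h3
      ext x
      by_cases hx : x = N
      · subst hx
        omega
      · have h4 := DFunLike.congr_fun h1 x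
        rw [Finsupp.erase_apply, Finsupp.erase_apply, if_neg hx, if_neg hx] at h4
        exact h4.symm⟩
    left_inv := by
      rintro ⟨T, hT1, hT2⟩
      apply Subtype.ext
      ext i j
      simp only
      by_cases h : (i, j) ∈ μ
      · by_cases h1 : (i, j) ∈ ν
        · rw [extend_apply _ _ _ _ h1, restr_apply _ _ h1]
        · rw [extend_apply' _ _ _ _ h1 h]
          have h2 := ctab_lt T m hT1 (N + 1) hN h
          have h3 : ¬ T i j < N := fun h4 => h1 (by rw [← hT2, mem_sub]; exact ⟨h, h4⟩)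
          omega
      · rw [SemistandardYoungTableau.zeros _ h, SemistandardYoungTableau.zeros _ h]
    right_inv := by
      rintro ⟨T, hT⟩
      apply Subtype.ext
      ext i j
      simp only
      by_cases h3 : (i, j) ∈ ν
      · rw [restr_apply _ _ h3, extend_apply _ _ _ _ h3]
      · rw [SemistandardYoungTableau.zeros _ h3, SemistandardYoungTableau.zeros _ h3] }

theorem card_tab (N : ℕ) : ∀ (μ : YoungDiagram) (m : ℕ →₀ ℕ), (∀ x, N ≤ x → m x = 0) →
    Finite {T : SemistandardYoungTableau μ // ctab T = m} ∧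
      (Nat.card {T : SemistandardYoungTableau μ // ctab T = m} : ℤ) =
        KK (fun i => (m i : ℤ)) N μ := by
  classical
  induction N with
  | zero =>
    intro μ m hm
    have hm0 : m = 0 := by
      ext x
      exact hm x (Nat.zero_le _)
    subst hm0
    have key : ∀ T : SemistandardYoungTableau μ, ctab T = 0 → μ = ⊥ := by
      intro T hT
      rw [← card_eq_zero_iff', Finset.card_eq_zero, Finset.eq_empty_iff_forall_notMem]
      rintro ⟨i, j⟩ h
      exact ctab_pos T h (by rw [hT]; rfl)
    by_cases hμ : μ = ⊥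
    · subst hμ
      have huniq : ∀ T T' : SemistandardYoungTableau ⊥, T = T' := by
        intro T T'
        ext i j
        rw [T.zeros (YoungDiagram.notMem_bot _), T'.zeros (YoungDiagram.notMem_bot _)]
      have hU : Unique {T : SemistandardYoungTableau ⊥ // ctab T = 0} :=
        { default := ⟨SemistandardYoungTableau.highestWeight ⊥, by
            rw [ctab, YoungDiagram.cells_bot, Finset.sum_empty]⟩
          uniq := fun T => Subtype.ext (huniq _ _) }
      refine ⟨Finite.of_subsingleton, ?_⟩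
      rw [KK_zero_bot, Nat.card_unique]
      rfl
    · have hE : IsEmpty {T : SemistandardYoungTableau μ // ctab T = 0} :=
        ⟨fun T => hμ (key T.1 T.2)⟩
      refine ⟨Finite.of_subsingleton, ?_⟩
      rw [KK_zero_ne _ hμ, Nat.card_of_isEmpty]
      rfl
  | succ N ih =>
    intro μ m hm
    have hmN : ∀ x, N ≤ x → m.erase N x = 0 := by
      intro x hx
      rw [Finsupp.erase_apply]
      split_ifs with h
      · rfl
      · exact hm x (by omega)
    have hle : ∀ T : {T : SemistandardYoungTableau μ // ctab T = m}, ∀ i j, (i, j) ∈ μ →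
        T.1 i j ≤ N := fun T i j h => Nat.le_of_lt_succ (ctab_lt T.1 m T.2 (N + 1) hm h)
    set S := (below μ).filter fun ν => (ν.cells.card : ℤ) + (m N : ℤ) = μ.cells.card with hS
    let f : {T : SemistandardYoungTableau μ // ctab T = m} → S := fun T => ⟨sub T.1 N, by
      rw [hS, mem_filter, mem_below]
      refine ⟨sub_IL T.1 N (hle T), ?_⟩
      have := sub_card T.1 N (hle T)
      rw [T.2] at this
      omega⟩
    have e : {T : SemistandardYoungTableau μ // ctab T = m} ≃
        Σ ν : S, {T : SemistandardYoungTableau ν.1 // ctab T = m.erase N} := by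
      refine (Equiv.sigmaFiberEquiv f).symm.trans (Equiv.sigmaCongrRight fun ν => ?_)
      have hν := mem_filter.1 ν.2
      rw [mem_below] at hν
      refine Equiv.trans ?_ (fibEquiv m N hm hν.1 (by omega))
      exact
      { toFun := fun T => ⟨T.1.1, T.1.2, congrArg Subtype.val T.2⟩
        invFun := fun T => ⟨⟨T.1, T.2.1⟩, Subtype.ext T.2.2⟩
        left_inv := fun T => rfl
        right_inv := fun T => rfl }
    have hfin : ∀ ν : S, Finite {T : SemistandardYoungTableau ν.1 // ctab T = m.erase N} :=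
      fun ν => (ih ν.1 _ hmN).1
    refine ⟨Finite.of_equiv _ e.symm, ?_⟩
    rw [Nat.card_congr e, Nat.card_sigma, KK, U]
    push_cast
    rw [← Finset.sum_coe_sort S]
    refine Finset.sum_congr rfl fun ν _ => ?_
    rw [(ih ν.1 _ hmN).2]
    refine congrFun (KK_congr _ _ N fun i hi => ?_) ν.1
    rw [Finsupp.erase_apply, if_neg (by omega)]

theorem coeff_schur (μ : YoungDiagram) (m : ℕ →₀ ℕ) (N : ℕ) (hN : ∀ x, N ≤ x → m x = 0) :
    MvPowerSeries.coeff m (schur μ) = KK (fun i => (m i : ℤ)) N μ :=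
  (card_tab N μ m hN).2

end Pool.Agent.R850.FG
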