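import Mathlib
import Pool.Agent.R850.FG.Op
import Pool.Agent.R859.QS.Rot

/-! # Words and lattice words: removal of the last block -/

set_option autoImplicit false

namespace Pool.Agent.R850.FG

open Finset Pool.Agent.R859.QS

/-- adjacent letters outside of `J` are related by `R` -/
def adj {n : ℕ} (J : Finset ℕ) (R : ℕ → ℕ → Prop) (w : Fin n → ℕ) : Prop :=
  ∀ i j : Fin n, j.val = i.val + 1 → j.val ∉ J → R (w i) (w j)

theorem adj_append {n a : ℕ} (J : Finset ℕ) (R : ℕ → ℕ → Prop) (w1 : Fin n → ℕ) (w2 : Fin a → ℕ)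
    (h0 : n ∈ J ∨ n = 0) (hJ : ∀ x ∈ J, x ≤ n ∨ n + a ≤ x) :
    adj J R (Fin.append w1 w2) ↔
      adj J R w1 ∧ ∀ i j : Fin a, j.val = i.val + 1 → R (w2 i) (w2 j) := by
  constructor
  · intro h
    constructor
    · intro i j hij hj
      have := h (Fin.castAdd a i) (Fin.castAdd a j) (by simpa using hij) (by simpa using hj)
      rwa [Fin.append_left, Fin.append_left] at this
    · intro i j hij
      have := h (Fin.natAdd n i) (Fin.natAdd n j) (by simp; omega) (by
        intro h1
        rw [Fin.val_natAdd] at h1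
        rcases hJ _ h1 with h2 | h2 <;> omega)
      rwa [Fin.append_right, Fin.append_right] at this
  · rintro ⟨h1, h2⟩ i j
    refine Fin.addCases (fun i => ?_) (fun i => ?_) i <;>
      refine Fin.addCases (fun j => ?_) (fun j => ?_) j
    · intro hij hj
      rw [Fin.append_left, Fin.append_left]
      exact h1 i j (by simpa using hij) (by simpa using hj)
    · intro hij hj
      exfalso
      rw [Fin.val_natAdd, Fin.val_castAdd] at hij
      have hj0 : j.val = 0 := by omega
      rw [Fin.val_natAdd, hj0, add_zero] at hj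
      rcases h0 with h0 | h0
      · exact hj h0
      · omega
    · intro hij hj
      exfalso
      rw [Fin.val_natAdd, Fin.val_castAdd] at hij
      omega
    · intro hij hj
      rw [Fin.append_right, Fin.append_right]
      rw [Fin.val_natAdd, Fin.val_natAdd] at hij
      exact h2 i j (by omega)

theorem cont_append {n a : ℕ} (w1 : Fin n → ℕ) (w2 : Fin a → ℕ) :
    cont (Fin.append w1 w2) = cont w1 + cont w2 := by
  rw [cont, Fin.sum_univ_add]
  simp only [Fin.append_left, Fin.append_right]
  rfl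

theorem append_eq {n a : ℕ} (w : Fin (n + a) → ℕ) :
    Fin.append (fun i => w (Fin.castAdd a i)) (fun i => w (Fin.natAdd n i)) = w := by
  funext i
  refine Fin.addCases (fun i => ?_) (fun i => ?_) i
  · rw [Fin.append_left]
  · rw [Fin.append_right]

theorem sum_cont {n : ℕ} (w : Fin n → ℕ) (N : ℕ) (h : ∀ i, w i < N) :
    ∑ x ∈ range N, cont w x = n := by
  simp only [cont_apply]
  rw [← Finset.card_eq_sum_card_fiberwise (f := w) (t := range N)]
  · simp
  · intro i _
    exact mem_coe.2 (mem_range.2 (h i))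

theorem cont_eq_zero {n : ℕ} (w : Fin n → ℕ) (x : ℕ) (h : ∀ i, w i ≠ x) : cont w x = 0 := by
  rw [← Finsupp.notMem_support_iff, mem_support_cont]
  rintro ⟨i, hi⟩
  exact h i hi

/-- A monotone word with given content. -/
theorem exists_mono' (a : ℕ) (c : ℕ → ℕ) (N : ℕ) (hc : ∑ x ∈ range N, c x = a)
    (h0 : ∀ x, N ≤ x → c x = 0) : ∃ u : Fin a → ℕ, Monotone u ∧ ∀ x, cont u x = c x := by
  classical
  set M : ℕ →₀ ℕ := Finsupp.onFinset (range N) c (fun x hx => by
    rw [mem_range]
    by_contra h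
    exact hx (h0 x (not_lt.1 h))) with hM
  obtain ⟨u, hu1, hu2⟩ := exists_mono a M (by
    rw [Finsupp.card_toMultiset, Finsupp.sum]
    rw [Finset.sum_subset (s₂ := range N)]
    · exact hc
    · intro x hx
      rw [Finsupp.mem_support_iff] at hx
      rw [mem_range]
      by_contra h
      exact hx (h0 x (not_lt.1 h))
    · intro x _ hx
      rw [Finsupp.notMem_support_iff] at hx
      rw [hx]
      rfl)
  refine ⟨u, hu1, fun x => ?_⟩
  rw [hu2]
  rfl

theorem exists_anti' (a : ℕ) (c : ℕ → ℕ) (N : ℕ) (hc : ∑ x ∈ range N, c x = a)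
    (h0 : ∀ x, N ≤ x → c x = 0) : ∃ u : Fin a → ℕ, Antitone u ∧ ∀ x, cont u x = c x := by
  obtain ⟨u, h1, h2⟩ := exists_mono' a c N hc h0
  refine ⟨u ∘ Fin.revPerm, ?_, fun x => ?_⟩
  · intro i j hij
    exact h1 (Fin.rev_le_rev.2 hij)
  · rw [cont_comp_perm, h2]

theorem antitone_unique {a : ℕ} (f g : Fin a → ℕ) (hf : Antitone f) (hg : Antitone g)
    (h : cont f = cont g) : f = g := by
  have h1 : f ∘ Fin.revPerm = g ∘ Fin.revPerm := by
    apply monotone_unique
    · intro i j hij
      exact hf (Fin.rev_le_rev.2 hij)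
    · intro i j hij
      exact hg (Fin.rev_le_rev.2 hij)
    · rw [cont_comp_perm, cont_comp_perm, h]
  funext i
  have := congrFun h1 (Fin.rev i)
  simpa using this

/-! ### Words -/

/-- words with letters less than `N`, contents `m`, weakly increasing outside of `J` -/
def WD (n : ℕ) (J : Finset ℕ) (N : ℕ) (m : ℕ → ℤ) : Type :=
  {w : Fin n → ℕ // (∀ i, w i < N) ∧ (∀ x < N, (cont w x : ℤ) = m x) ∧ adj J (· ≤ ·) w}

theorem WD_finite (n : ℕ) (J : Finset ℕ) (N : ℕ) (m : ℕ → ℤ) : Finite (WD n J N m) := by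
  refine Finite.of_injective (β := Fin n → Fin N) (fun w i => ⟨w.1 i, w.2.1 i⟩) ?_
  intro w w' h
  apply Subtype.ext
  funext i
  exact congrArg Fin.val (congrFun h i)

theorem words_rec (n a : ℕ) (J : Finset ℕ) (N : ℕ) (m : ℕ → ℤ) (h0 : n ∈ J ∨ n = 0)
    (hJ : ∀ x ∈ J, x ≤ n ∨ n + a ≤ x) :
    (Nat.card (WD (n + a) J N m) : ℤ) =
      ∑ c ∈ (range N).piAntidiag a, (Nat.card (WD n J N fun i => m i - c i) : ℤ) := by
  classical
  have hsplit : ∀ w : Fin (n + a) → ℕ, adj J (· ≤ ·) w →
      adj J (· ≤ ·) (fun i => w (Fin.castAdd a i)) ∧ Monotone (fun i => w (Fin.natAdd n i)) := by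
    intro w hw
    rw [← append_eq w, adj_append J _ _ _ h0 hJ] at hw
    exact ⟨hw.1, monotone_of_succ _ hw.2⟩
  have hcs : ∀ (w : Fin (n + a) → ℕ) (x : ℕ), cont w x =
      cont (fun i => w (Fin.castAdd a i)) x + cont (fun i => w (Fin.natAdd n i)) x := by
    intro w x
    conv_lhs => rw [← append_eq w, cont_append]
    rfl
  set S := (range N).piAntidiag a with hS
  let f : WD (n + a) J N m → S := fun w => ⟨fun x => cont (fun i => w.1 (Fin.natAdd n i)) x, by
    rw [hS, mem_piAntidiag]
    refine ⟨sum_cont _ N fun i => w.2.1 _, fun x hx => ?_⟩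
    rw [mem_range]
    by_contra h
    exact hx (cont_eq_zero _ x fun i hi => h (hi ▸ w.2.1 _))⟩
  have e : WD (n + a) J N m ≃ Σ c : S, WD n J N fun i => m i - c.1 i := by
    refine (Equiv.sigmaFiberEquiv f).symm.trans (Equiv.sigmaCongrRight fun c => ?_)
    have hc := mem_piAntidiag.1 c.2
    have hc0 : ∀ x, N ≤ x → c.1 x = 0 := by
      intro x hx
      by_contra h
      have := mem_range.1 (hc.2 x h)
      omega
    have hex := exists_mono' a c.1 N hc.1 hc0
    obtain ⟨hu1, hu2⟩ := hex.choose_spec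
    have huN : ∀ i, hex.choose i < N := by
      intro i
      by_contra h
      have h1 := cont_apply_pos hex.choose i
      rw [hu2, hc0 _ (not_lt.1 h)] at h1
      omega
    exact
    { toFun := fun w => ⟨fun i => w.1.1 (Fin.castAdd a i), fun i => w.1.2.1 _, by
        intro x hx
        have h1 := w.1.2.2.1 x hx
        have h2 := hcs w.1.1 x
        have h3 : cont (fun i => w.1.1 (Fin.natAdd n i)) x = c.1 x :=
          congrFun (congrArg Subtype.val w.2) x
        rw [h2, h3] at h1
        push_cast at h1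
        show _ = m x - (c.1 x : ℤ)
        omega, (hsplit _ w.1.2.2.2).1⟩
      invFun := fun w => ⟨⟨Fin.append w.1 hex.choose, by
          intro i
          refine Fin.addCases (fun i => ?_) (fun i => ?_) i
          · rw [Fin.append_left]
            exact w.2.1 i
          · rw [Fin.append_right]
            exact huN i, by
          intro x hx
          have h1 : (cont w.1 x : ℤ) = m x - (c.1 x : ℤ) := w.2.2.1 x hx
          rw [cont_append, Finsupp.add_apply, hu2]
          push_cast
          omega, by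
          rw [adj_append J _ _ _ h0 hJ]
          exact ⟨w.2.2.2, fun i j hij => hu1 (by rw [Fin.le_def]; omega)⟩⟩, by
        apply Subtype.ext
        funext x
        show cont (fun i => Fin.append w.1 hex.choose (Fin.natAdd n i)) x = c.1 x
        simp only [Fin.append_right]
        exact hu2 x⟩
      left_inv := by
        intro w
        apply Subtype.ext
        apply Subtype.ext
        show Fin.append (fun i => w.1.1 (Fin.castAdd a i)) hex.choose = w.1.1
        conv_rhs => rw [← append_eq w.1.1]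
        congr 1
        apply monotone_unique _ _ hu1 (hsplit _ w.1.2.2.2).2
        ext x
        rw [hu2]
        exact (congrFun (congrArg Subtype.val w.2) x).symm
      right_inv := by
        intro w
        apply Subtype.ext
        funext i
        show Fin.append w.1 hex.choose (Fin.castAdd a i) = w.1 i
        rw [Fin.append_left] }
  have hfin : ∀ c : S, Finite (WD n J N fun i => m i - c.1 i) := fun c => WD_finite _ _ _ _
  rw [Nat.card_congr e, Nat.card_sigma]
  push_cast
  rw [Finset.sum_coe_sort S (fun c => (Nat.card (WD n J N fun i => m i - c i) : ℤ))]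

/-! ### Lattice words -/

/-- the number of the letters `x` among the first `i` letters -/
def pc {n : ℕ} (w : Fin n → ℕ) (i x : ℕ) : ℕ := (univ.filter fun t : Fin n => t.val < i ∧ w t = x).card

/-- lattice words -/
def lat {n : ℕ} (w : Fin n → ℕ) : Prop := ∀ i ≤ n, ∀ x, pc w i (x + 1) ≤ pc w i x

theorem pc_full {n : ℕ} (w : Fin n → ℕ) (i x : ℕ) (hi : n ≤ i) : pc w i x = cont w x := by
  rw [cont_apply, pc]
  congr 1
  ext t
  rw [mem_filter, mem_filter]
  have := t.isLt
  constructor
  · exact fun h => ⟨h.1, h.2.2⟩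
  · exact fun h => ⟨h.1, by omega, h.2⟩

theorem pc_append {n a : ℕ} (w1 : Fin n → ℕ) (w2 : Fin a → ℕ) (i x : ℕ) :
    pc (Fin.append w1 w2) i x = pc w1 i x + pc w2 (i - n) x := by
  classical
  unfold pc
  rw [Finset.card_filter, Finset.card_filter, Finset.card_filter, Fin.sum_univ_add]
  congr 1
  · refine Finset.sum_congr rfl fun t _ => ?_
    rw [Fin.append_left, Fin.val_castAdd]
  · refine Finset.sum_congr rfl fun t _ => ?_
    rw [Fin.append_right, Fin.val_natAdd]
    refine if_congr ?_ rfl rfl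
    constructor
    · rintro ⟨h1, h2⟩
      exact ⟨by omega, h2⟩
    · rintro ⟨h1, h2⟩
      exact ⟨by omega, h2⟩

theorem pc_zero {n : ℕ} (w : Fin n → ℕ) (x : ℕ) : pc w 0 x = 0 := by
  simp [pc]

theorem pc_le {n : ℕ} (w : Fin n → ℕ) (i x : ℕ) : pc w i x ≤ cont w x := by
  rw [cont_apply, pc]
  exact Finset.card_le_card fun t ht => by
    rw [mem_filter] at ht ⊢
    exact ⟨ht.1, ht.2.2⟩

theorem lat_append {n a : ℕ} (w1 : Fin n → ℕ) (w2 : Fin a → ℕ) :
    lat (Fin.append w1 w2) ↔ lat w1 ∧
      ∀ i ≤ a, ∀ x, cont w1 (x + 1) + pc w2 i (x + 1) ≤ cont w1 x + pc w2 i x := by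
  constructor
  · intro h
    constructor
    · intro i hi x
      have := h i (by omega) x
      rw [pc_append, pc_append] at this
      have e : i - n = 0 := by omega
      rw [e, pc_zero, pc_zero] at this
      omega
    · intro i hi x
      have := h (n + i) (by omega) x
      rw [pc_append, pc_append, pc_full w1 _ _ (by omega), pc_full w1 _ _ (by omega)] at this
      have e : n + i - n = i := by omega
      rwa [e] at this
  · rintro ⟨h1, h2⟩ i hi x
    rw [pc_append, pc_append]
    by_cases h : i ≤ n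
    · have e : i - n = 0 := by omega
      rw [e, pc_zero, pc_zero]
      exact h1 i h x
    · rw [pc_full w1 _ _ (by omega), pc_full w1 _ _ (by omega)]
      exact h2 (i - n) (by omega) x

theorem exists_cut {a : ℕ} (u : Fin a → ℕ) (hu : Antitone u) (x : ℕ) :
    ∃ i ≤ a, ∀ t : Fin a, t.val < i ↔ x < u t := by
  classical
  have hP : ∃ i : ℕ, ∀ t : Fin a, i ≤ t.val → u t ≤ x := ⟨a, fun t ht => by
    have := t.isLt
    omega⟩
  refine ⟨Nat.find hP, Nat.find_min' hP fun t ht => by
    have := t.isLt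
    omega, fun t => ⟨fun h => ?_, fun h => ?_⟩⟩
  · have h1 := Nat.find_min hP h
    push Not at h1
    obtain ⟨t', ht', h2⟩ := h1
    exact lt_of_lt_of_le h2 (hu ht')
  · by_contra h1
    have := Nat.find_spec hP t (not_lt.1 h1)
    omega

theorem IL_of_lat {a : ℕ} (u : Fin a → ℕ) (hu : Antitone u) (l : ℕ → ℕ)
    (h : ∀ i ≤ a, ∀ x, l (x + 1) + pc u i (x + 1) ≤ l x + pc u i x) (x : ℕ) :
    l (x + 1) + cont u (x + 1) ≤ l x := by
  obtain ⟨i, hi, hc⟩ := exists_cut u hu x
  have h1 := h i hi x
  have h2 : pc u i (x + 1) = cont u (x + 1) := by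
    rw [pc, cont_apply]
    congr 1
    ext t
    rw [mem_filter, mem_filter, hc t]
    constructor
    · exact fun h => ⟨h.1, h.2.2⟩
    · exact fun h => ⟨h.1, by omega, h.2⟩
  have h3 : pc u i x = 0 := by
    rw [pc, Finset.card_eq_zero, Finset.filter_eq_empty_iff]
    rintro t -
    rw [hc t]
    omega
  omega

/-- lattice words with given content, weakly decreasing outside of `J` -/
def LW (n : ℕ) (J : Finset ℕ) (l : YoungDiagram) : Type :=
  {w : Fin n → ℕ // lat w ∧ (∀ x, cont w x = l.rowLen x) ∧ adj J (· ≥ ·) w}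

theorem LW_finite (n : ℕ) (J : Finset ℕ) (l : YoungDiagram) : Finite (LW n J l) := by
  obtain ⟨b, hb⟩ := exists_zero l
  refine Finite.of_injective (β := Fin n → Fin b) (fun w i => ⟨w.1 i, ?_⟩) ?_
  · by_contra h
    have h1 := cont_apply_pos w.1 i
    rw [w.2.2.1, rowLen_zero_mono l hb (not_lt.1 h)] at h1
    omega
  · intro w w' h
    apply Subtype.ext
    funext i
    exact congrArg Fin.val (congrFun h i)

theorem exists_bd {n : ℕ} (w : Fin n → ℕ) : ∃ b, ∀ i, w i < b :=
  ⟨univ.sup w + 1, fun i => Nat.lt_succ_of_le (Finset.le_sup (f := w) (mem_univ i))⟩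

theorem card_of_cont {n : ℕ} (w : Fin n → ℕ) (l : YoungDiagram) (h : ∀ x, cont w x = l.rowLen x) :
    l.cells.card = n := by
  obtain ⟨b, hb⟩ := exists_bd w
  rw [card_eq_sum l b (by rw [← h]; exact cont_eq_zero _ _ fun i => (hb i).ne),
    ← sum_cont w b hb]
  exact Finset.sum_congr rfl fun x _ => (h x).symm

theorem mk_cont {n : ℕ} (w : Fin n → ℕ) (hw : lat w) (x : ℕ) :
    (mk fun x => cont w x).rowLen x = cont w x := by
  obtain ⟨b, hb⟩ := exists_bd w
  refine mk_rowLen _ (antitone_nat_of_succ_le fun x => ?_) b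
    (cont_eq_zero _ _ fun i => (hb i).ne) x
  have := hw n le_rfl x
  rwa [pc_full w _ _ le_rfl, pc_full w _ _ le_rfl] at this

theorem antitone_of_succ' {n : ℕ} (f : Fin n → ℕ)
    (h : ∀ i j : Fin n, j.val = i.val + 1 → f i ≥ f j) : Antitone f := by
  intro a b hab
  obtain ⟨a, ha⟩ := a
  obtain ⟨b, hb⟩ := b
  rw [Fin.mk_le_mk] at hab
  obtain ⟨d, rfl⟩ : ∃ d, b = a + d := ⟨b - a, by omega⟩
  induction d with
  | zero => exact le_rfl
  | succ d ih =>
    exact (h ⟨a + d, by omega⟩ ⟨a + (d + 1), hb⟩ rfl).le.trans (ih (by omega) (by omega))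

theorem lattice_rec (n a : ℕ) (J : Finset ℕ) (h0 : n ∈ J ∨ n = 0)
    (hJ : ∀ x ∈ J, x ≤ n ∨ n + a ≤ x) (ρ : YoungDiagram) (hρ : ρ.cells.card = n + a) :
    (Nat.card (LW (n + a) J ρ) : ℤ) = U a (fun ν => (Nat.card (LW n J ν) : ℤ)) ρ := by
  classical
  have hsplit : ∀ w : Fin (n + a) → ℕ, adj J (· ≥ ·) w →
      adj J (· ≥ ·) (fun i => w (Fin.castAdd a i)) ∧ Antitone (fun i => w (Fin.natAdd n i)) := by
    intro w hw
    rw [← append_eq w, adj_append J _ _ _ h0 hJ] at hw
    exact ⟨hw.1, antitone_of_succ' _ hw.2⟩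
  have hcs : ∀ (w : Fin (n + a) → ℕ) (x : ℕ), cont w x =
      cont (fun i => w (Fin.castAdd a i)) x + cont (fun i => w (Fin.natAdd n i)) x := by
    intro w x
    conv_lhs => rw [← append_eq w, cont_append]
    rfl
  have hlat : ∀ w : Fin (n + a) → ℕ, lat w → lat (fun i => w (Fin.castAdd a i)) ∧
      ∀ i ≤ a, ∀ x, cont (fun i => w (Fin.castAdd a i)) (x + 1) +
        pc (fun i => w (Fin.natAdd n i)) i (x + 1) ≤
        cont (fun i => w (Fin.castAdd a i)) x + pc (fun i => w (Fin.natAdd n i)) i x := by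
    intro w hw
    rwa [← append_eq w, lat_append] at hw
  obtain ⟨b, hb⟩ := exists_zero ρ
  set S := (below ρ).filter fun ν => (ν.cells.card : ℤ) + (a : ℤ) = ρ.cells.card with hS
  let f : LW (n + a) J ρ → S := fun w => ⟨mk fun x => cont (fun i => w.1 (Fin.castAdd a i)) x, by
    have h1 := hlat _ w.2.1
    have h2 := mk_cont _ h1.1
    rw [hS, mem_filter, mem_below]
    constructor
    · intro x
      rw [h2, ← w.2.2.1, ← w.2.2.1, hcs, hcs w.1 x]
      exact ⟨IL_of_lat _ (hsplit _ w.2.2.2).2 _ h1.2 x, by omega⟩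
    · rw [card_of_cont (fun i => w.1 (Fin.castAdd a i)) _ (fun x => (h2 x).symm), hρ]
      push_cast
      rfl⟩
  have hf : ∀ (w : LW (n + a) J ρ) (x : ℕ), (f w).1.rowLen x =
      cont (fun i => w.1 (Fin.castAdd a i)) x := fun w x => mk_cont _ (hlat _ w.2.1).1 x
  have e : LW (n + a) J ρ ≃ Σ ν : S, LW n J ν.1 := by
    refine (Equiv.sigmaFiberEquiv f).symm.trans (Equiv.sigmaCongrRight fun ν => ?_)
    have hν := mem_filter.1 ν.2
    rw [mem_below] at hν
    obtain ⟨hν1, hν2⟩ := hν
    have hνn : ν.1.cells.card = n := by omega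
    have hb' : ν.1.rowLen b = 0 := Nat.le_zero.1 (hb ▸ (hν1 b).2)
    have hex := exists_anti' a (fun x => ρ.rowLen x - ν.1.rowLen x) b (by
      have e1 := card_eq_sum ρ b hb
      have e2 := card_eq_sum ν.1 b hb'
      have e3 : (∑ x ∈ range b, (ρ.rowLen x - ν.1.rowLen x)) + ∑ x ∈ range b, ν.1.rowLen x =
          ∑ x ∈ range b, ρ.rowLen x := by
        rw [← Finset.sum_add_distrib]
        exact Finset.sum_congr rfl fun x _ => Nat.sub_add_cancel (hν1 x).2
      omega) (by
      intro x hx
      rw [rowLen_zero_mono ρ hb hx]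
      exact Nat.zero_sub _)
    obtain ⟨hu1, hu2⟩ := hex.choose_spec
    exact
    { toFun := fun w => ⟨fun i => w.1.1 (Fin.castAdd a i), (hlat _ w.1.2.1).1, by
        intro x
        rw [← hf w.1 x, w.2], (hsplit _ w.1.2.2.2).1⟩
      invFun := fun w => ⟨⟨Fin.append w.1 hex.choose, by
          rw [lat_append]
          refine ⟨w.2.1, fun i hi x => ?_⟩
          have h1 := pc_le hex.choose i (x + 1)
          rw [hu2] at h1
          rw [w.2.2.1, w.2.2.1]
          have h2 := hν1 x
          have h3 := hν1 (x + 1)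
          omega, by
          intro x
          rw [cont_append, Finsupp.add_apply, hu2, w.2.2.1]
          have := hν1 x
          omega, by
          rw [adj_append J _ _ _ h0 hJ]
          exact ⟨w.2.2.2, fun i j hij => hu1 (by rw [Fin.le_def]; omega)⟩⟩, by
        apply Subtype.ext
        apply ext_rowLen
        intro x
        refine (hf _ x).trans ?_
        show cont (fun i => Fin.append w.1 hex.choose (Fin.castAdd a i)) x = _
        simp only [Fin.append_left]
        exact w.2.2.1 x⟩
      left_inv := by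
        intro w
        apply Subtype.ext
        apply Subtype.ext
        show Fin.append (fun i => w.1.1 (Fin.castAdd a i)) hex.choose = w.1.1
        conv_rhs => rw [← append_eq w.1.1]
        congr 1
        apply antitone_unique _ _ hu1 (hsplit _ w.1.2.2.2).2
        ext x
        rw [hu2, ← w.1.2.2.1, hcs, ← hf w.1, w.2]
        omega
      right_inv := by
        intro w
        apply Subtype.ext
        funext i
        show Fin.append w.1 hex.choose (Fin.castAdd a i) = w.1 i
        rw [Fin.append_left] }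
  have hfin : ∀ ν : S, Finite (LW n J ν.1) := fun ν => LW_finite _ _ _
  rw [Nat.card_congr e, Nat.card_sigma, U]
  push_cast
  rw [Finset.sum_coe_sort S (fun ν => (Nat.card (LW n J ν) : ℤ))]

end Pool.Agent.R850.FG
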