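import Mathlib
import Pool.Agent.R850.FG.Words
import Pool.Agent.R850.FG.SSYT

/-! # Inverse descent classes are Schur-positive (Gessel) -/

set_option autoImplicit false

namespace Pool.Agent.R850.FG

open Finset Pool.Agent.R859.QS

theorem below_bot : below ⊥ = {⊥} := by
  ext ν
  rw [mem_below, mem_singleton]
  constructor
  · intro h
    have h1 := h.card_le
    rw [← card_eq_zero_iff']
    have h2 : (⊥ : YoungDiagram).cells.card = 0 := rfl
    omega
  · rintro rfl
    exact IL_bot_bot

theorem YD_zero : YD 0 = {⊥} := by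
  ext ν
  rw [mem_YD, mem_singleton, card_eq_zero_iff']

theorem KK_bot (m : ℕ → ℤ) (N : ℕ) :
    KK m N ⊥ = open Classical in if ∀ x < N, m x = 0 then 1 else 0 := by
  classical
  induction N with
  | zero => rw [KK_zero_bot, if_pos]; omega
  | succ N ih =>
    rw [KK, U, below_bot]
    by_cases h : m N = 0
    · rw [Finset.filter_true_of_mem, Finset.sum_singleton, ih]
      · refine if_congr ⟨fun h1 x hx => ?_, fun h1 x hx => h1 x (by omega)⟩ rfl rfl
        rcases Nat.lt_succ_iff_lt_or_eq.1 hx with h2 | h2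
        · exact h1 x h2
        · rw [h2, h]
      · intro ν hν
        rw [mem_singleton.1 hν, h, add_zero]
    · rw [Finset.filter_false_of_mem, Finset.sum_empty, if_neg]
      · exact fun h1 => h (h1 N (Nat.lt_succ_self N))
      · intro ν hν
        rw [mem_singleton.1 hν]
        omega

theorem words_eq (N : ℕ) (J : Finset ℕ) (n : ℕ) : ∀ m : ℕ → ℤ,
    (Nat.card (WD n J N m) : ℤ) = ∑ ρ ∈ YD n, (Nat.card (LW n J ρ) : ℤ) * KK m N ρ := by
  classical
  induction n using Nat.strong_induction_on with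
  | _ n ih =>
  intro m
  rcases Nat.eq_zero_or_pos n with rfl | hn
  · rw [YD_zero, sum_singleton, KK_bot]
    have h1 : Nat.card (LW 0 J ⊥) = 1 := by
      have hU : Unique (LW 0 J ⊥) :=
        { default := ⟨Fin.elim0, by
            intro i _ x
            simp [pc], by
            intro x
            rw [cont_eq_zero _ _ (fun i => i.elim0)]
            have := rowLen_card ⊥
            exact (rowLen_zero_mono ⊥ this (Nat.zero_le x)).symm, fun i => i.elim0⟩
          uniq := fun w => Subtype.ext (funext fun i => i.elim0) }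
      exact Nat.card_unique
    rw [h1, Nat.cast_one, one_mul]
    split_ifs with h
    · have hU : Unique (WD 0 J N m) :=
        { default := ⟨Fin.elim0, fun i => i.elim0, by
            intro x hx
            rw [cont_eq_zero _ _ (fun i => i.elim0), h x hx]
            rfl, fun i => i.elim0⟩
          uniq := fun w => Subtype.ext (funext fun i => i.elim0) }
      rw [Nat.card_unique]
      rfl
    · have hE : IsEmpty (WD 0 J N m) := by
        refine ⟨fun w => h fun x hx => ?_⟩
        rw [← w.2.2.1 x hx, cont_eq_zero _ _ (fun i => i.elim0)]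
        rfl
      rw [Nat.card_of_isEmpty]
      rfl
  · obtain ⟨n', hn', h0, hJ⟩ : ∃ n' < n, (n' ∈ J ∨ n' = 0) ∧ ∀ x ∈ J, x ≤ n' ∨ n ≤ x := by
      by_cases hne : (J.filter fun x => x < n).Nonempty
      · refine ⟨(J.filter fun x => x < n).max' hne, ?_, ?_, ?_⟩
        · exact (mem_filter.1 (max'_mem _ hne)).2
        · exact Or.inl (mem_filter.1 (max'_mem _ hne)).1
        · intro x hx
          by_cases h : x < n
          · exact Or.inl (le_max' _ _ (mem_filter.2 ⟨hx, h⟩))
          · exact Or.inr (not_lt.1 h)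
      · refine ⟨0, hn, Or.inr rfl, fun x hx => Or.inr ?_⟩
        by_contra h
        exact hne ⟨x, mem_filter.2 ⟨hx, not_le.1 h⟩⟩
    obtain ⟨a, rfl⟩ : ∃ a, n = n' + a := ⟨n - n', by omega⟩
    rw [words_rec n' a J N m h0 hJ]
    have e1 : ∀ ρ ∈ YD (n' + a), (Nat.card (LW (n' + a) J ρ) : ℤ) * KK m N ρ =
        U a (fun ν => (Nat.card (LW n' J ν) : ℤ)) ρ * KK m N ρ := fun ρ hρ => by
      rw [lattice_rec n' a J h0 hJ ρ (mem_YD.1 hρ)]
    rw [Finset.sum_congr rfl e1, sum_U_mul]
    simp_rw [D_KK, Finset.mul_sum]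
    rw [Finset.sum_comm]
    exact Finset.sum_congr rfl fun c _ => ih n' hn' _

/-! ### Ascents of lattice words -/

/-- the positions of the ascents -/
def asc {n : ℕ} (w : Fin n → ℕ) : Finset ℕ :=
  open Classical in
  (Finset.Ioo 0 n).filter fun i => ∃ a b : Fin n, a.val + 1 = i ∧ b.val = i ∧ w a < w b

theorem asc_subset_iff {n : ℕ} (w : Fin n → ℕ) (J : Finset ℕ) : asc w ⊆ J ↔ adj J (· ≥ ·) w := by
  classical
  constructor
  · intro h i j hij hj
    by_contra hlt
    refine hj (h ?_)
    rw [asc, mem_filter, mem_Ioo]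
    exact ⟨⟨by omega, j.isLt⟩, i, j, by omega, rfl, not_le.1 hlt⟩
  · intro h d hd
    rw [asc, mem_filter] at hd
    obtain ⟨-, a, b, ha, hb, hlt⟩ := hd
    by_contra hdJ
    exact absurd (h a b (by omega) (by rwa [hb])) (not_le.2 hlt)

/-- the lattice words with content `l` and set of ascents `I`; they correspond to the standard
Young tableaux of shape `l` with descent set `I` -/
def LA (n : ℕ) (I : Finset ℕ) (l : YoungDiagram) : Type :=
  {w : Fin n → ℕ // lat w ∧ (∀ x, cont w x = l.rowLen x) ∧ asc w = I}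

theorem card_LW (n : ℕ) (J : Finset ℕ) (l : YoungDiagram) :
    (Nat.card (LW n J l) : ℤ) = ∑ I ∈ J.powerset, (Nat.card (LA n I l) : ℤ) := by
  classical
  let f : LW n J l → J.powerset := fun w => ⟨asc w.1, by
    rw [mem_powerset, asc_subset_iff]
    exact w.2.2.2⟩
  have e : LW n J l ≃ Σ I : J.powerset, LA n I.1 l := by
    refine (Equiv.sigmaFiberEquiv f).symm.trans (Equiv.sigmaCongrRight fun I => ?_)
    exact
    { toFun := fun w => ⟨w.1.1, w.1.2.1, w.1.2.2.1, congrArg Subtype.val w.2⟩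
      invFun := fun w => ⟨⟨w.1, w.2.1, w.2.2.1, by
        rw [← asc_subset_iff, w.2.2.2]
        exact mem_powerset.1 I.2⟩, Subtype.ext w.2.2.2⟩
      left_inv := fun w => rfl
      right_inv := fun w => rfl }
  have hfin : ∀ I : J.powerset, Finite (LA n I.1 l) := by
    intro I
    have := LW_finite n I.1 l
    refine Finite.of_injective (β := LW n I.1 l) (fun w => ⟨w.1, w.2.1, w.2.2.1, by
      rw [← asc_subset_iff, w.2.2.2]⟩) ?_
    intro w w' h
    exact Subtype.ext (congrArg (fun v : LW n I.1 l => v.1) h)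
  rw [Nat.card_congr e, Nat.card_sigma]
  push_cast
  rw [Finset.sum_coe_sort J.powerset (fun I => (Nat.card (LA n I l) : ℤ))]

/-! ### Inverse descent classes -/

open Classical in
theorem coeff_invDes (n : ℕ) (J : Finset ℕ) (m : ℕ →₀ ℕ) :
    MvPowerSeries.coeff m (QF (invDes n J)) =
      ∑ w ∈ W n m, if Des (Tuple.sort w)⁻¹ = J then (1 : ℤ) else 0 := by
  rw [coeff_QF]
  refine Finset.sum_congr rfl fun w _ => ?_
  rw [invDes]
  by_cases h : Des (Tuple.sort w)⁻¹ = J
  · rw [if_pos h, Multiset.count_eq_one_of_mem (Finset.nodup _)]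
    · rfl
    · rw [Finset.mem_val, mem_filter]
      exact ⟨mem_univ _, h⟩
  · rw [if_neg h, Multiset.count_eq_zero_of_notMem]
    · rfl
    · rw [Finset.mem_val, mem_filter]
      exact fun h1 => h h1.2

open Classical in
theorem sum_coeff_invDes (n : ℕ) (J : Finset ℕ) (m : ℕ →₀ ℕ) :
    ∑ I ∈ J.powerset, MvPowerSeries.coeff m (QF (invDes n I)) =
      ∑ w ∈ W n m, if adj J (· ≤ ·) w then (1 : ℤ) else 0 := by
  simp_rw [coeff_invDes]
  rw [Finset.sum_comm]
  refine Finset.sum_congr rfl fun w _ => ?_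
  have h1 : adj J (· ≤ ·) w ↔ Des (Tuple.sort w)⁻¹ ∈ J.powerset := by
    rw [mem_powerset, des_subset_iff]
    refine forall_congr' fun i => forall_congr' fun j => forall_congr' fun hij => ?_
    rw [inv_sort_lt_succ w i j hij]
  rw [Finset.sum_ite_eq]
  exact if_congr h1.symm rfl rfl

open Classical in
theorem sum_W_eq_card (n : ℕ) (J : Finset ℕ) (m : ℕ →₀ ℕ) (N : ℕ) (hN : ∀ x, N ≤ x → m x = 0) :
    (∑ w ∈ W n m, if adj J (· ≤ ·) w then (1 : ℤ) else 0) =
      (Nat.card (WD n J N fun i => (m i : ℤ)) : ℤ) := by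
  rw [← Finset.sum_filter, Finset.sum_const, nsmul_eq_mul, mul_one]
  congr 1
  rw [← Fintype.card_coe, ← Nat.card_eq_fintype_card]
  refine Nat.card_congr (Equiv.subtypeEquivRight fun w => ?_)
  rw [mem_filter, mem_W]
  constructor
  · rintro ⟨h1, h2⟩
    refine ⟨fun i => ?_, fun x _ => by rw [h1], h2⟩
    by_contra h
    have h3 := cont_apply_pos w i
    rw [h1, hN _ (not_lt.1 h)] at h3
    omega
  · rintro ⟨h1, h2, h3⟩
    refine ⟨?_, h3⟩
    ext x
    by_cases hx : x < N
    · have h4 : (cont w x : ℤ) = (m x : ℤ) := h2 x hx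
      exact_mod_cast h4
    · rw [hN x (not_lt.1 hx)]
      exact cont_eq_zero _ _ fun i hi => hx (hi ▸ h1 i)

/-- Gessel's theorem. -/
theorem QF_invDes (n : ℕ) (J : Finset ℕ) :
    QF (invDes n J) = ∑ l ∈ YD n, (Nat.card (LA n J l) : ℤ) • schur l := by
  classical
  ext m
  obtain ⟨N, hN⟩ : ∃ N, ∀ x, N ≤ x → m x = 0 := by
    refine ⟨m.support.sup id + 1, fun x hx => ?_⟩
    by_contra h
    have h1 : x ≤ m.support.sup id :=
      Finset.le_sup (f := id) (Finsupp.mem_support_iff.2 h)
    omega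
  refine eq_of_sum_subset (fun J => MvPowerSeries.coeff m (QF (invDes n J)))
    (fun J => MvPowerSeries.coeff m (∑ l ∈ YD n, (Nat.card (LA n J l) : ℤ) • schur l))
    (fun J => ?_) J
  rw [sum_coeff_invDes, sum_W_eq_card n J m N hN, words_eq]
  have e : ∀ l ∈ YD n, (Nat.card (LW n J l) : ℤ) * KK (fun i => (m i : ℤ)) N l =
      ∑ I ∈ J.powerset, (Nat.card (LA n I l) : ℤ) * MvPowerSeries.coeff m (schur l) := by
    intro l _
    rw [card_LW, Finset.sum_mul, coeff_schur l m N hN]
  rw [Finset.sum_congr rfl e, Finset.sum_comm]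
  refine Finset.sum_congr rfl fun I _ => ?_
  rw [map_sum]
  refine Finset.sum_congr rfl fun l _ => ?_
  rw [map_zsmul, smul_eq_mul]

end Pool.Agent.R850.FG
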