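import Mathlib
import Pool.Agent.R850.FG.Gessel

/-! # Vertical rotations of one-column grid classes -/

set_option autoImplicit false

namespace Pool.Agent.R850.FG

open Finset Pool.Agent.R859.QS

/-! ### The rotations of an embedded inverse descent class -/

open Classical in
theorem sum_coeff_rot (k : ℕ) (J : Finset ℕ) (m : ℕ →₀ ℕ) :
    ∑ K ∈ J.powerset, MvPowerSeries.coeff m (QF (prodM (rot (k + 1)) (invDesExt k K))) =
      ∑ h ∈ W (k + 1) m, if wm k J h then (1 : ℤ) else 0 := by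
  by_cases hW : (W (k + 1) m).Nonempty
  · obtain ⟨w, hw⟩ := hW
    rw [mem_W] at hw
    have hg : Monotone (w ∘ Tuple.sort w) := Tuple.monotone_sort w
    have hm : cont (w ∘ Tuple.sort w) = m := by rw [cont_comp_perm, hw]
    simp_rw [coeff_rot_left k _ _ hg m hm]
    rw [sum_powerset_last, left_count k J _ hg m hm]
    exact final_count k J _ hg m hm
  · rw [Finset.not_nonempty_iff_eq_empty] at hW
    rw [hW, Finset.sum_empty]
    refine Finset.sum_eq_zero fun K _ => ?_
    rw [coeff_QF, hW, Finset.sum_empty]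

theorem QF_rot_eq (k : ℕ) (J : Finset ℕ) (hk : k ∉ J) :
    QF (prodM (rot (k + 1)) (invDesExt k J)) =
      QF (invDes (k + 1) J) + QF (invDes (k + 1) (insert k J)) := by
  classical
  ext m
  set G : Finset ℕ → ℤ := fun J =>
    MvPowerSeries.coeff m (QF (prodM (rot (k + 1)) (invDesExt k J))) with hG
  set I : Finset ℕ → ℤ := fun J => MvPowerSeries.coeff m (QF (invDes (k + 1) J)) with hI
  set H : Finset ℕ → ℤ := fun J => if k ∈ J then 0 else I J + I (insert k J) with hH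
  have h1 : ∀ J : Finset ℕ, k ∉ J → ∑ K ∈ J.powerset, H K =
      ∑ K ∈ (insert k J).powerset, I K := by
    intro J hJ
    rw [Finset.sum_powerset_insert hJ, ← Finset.sum_add_distrib]
    refine Finset.sum_congr rfl fun K hK => ?_
    rw [hH]
    exact if_neg fun h => hJ (mem_powerset.1 hK h)
  have h2 : ∀ J : Finset ℕ, ∑ K ∈ J.powerset, H K = ∑ K ∈ (insert k J).powerset, I K := by
    intro J
    by_cases hJ : k ∈ J
    · have h3 := h1 (J.erase k) (notMem_erase k J)
      rw [insert_erase hJ] at h3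
      rw [insert_eq_of_mem hJ, ← h3]
      conv_lhs => rw [← insert_erase hJ]
      rw [Finset.sum_powerset_insert (notMem_erase k J)]
      rw [add_eq_left]
      refine Finset.sum_eq_zero fun K _ => ?_
      rw [hH]
      exact if_pos (mem_insert_self _ _)
    · exact h1 J hJ
  have h3 : G J = H J := by
    refine eq_of_sum_subset G H (fun J => ?_) J
    rw [h2, hG, hI, sum_coeff_rot, sum_coeff_invDes]
    rfl
  have h4 : H J = I J + I (insert k J) := if_neg hk
  rw [map_add]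
  exact h3.trans h4

/-! ### Rotations -/

theorem rot_mod (k x : ℕ) : finRotate (k + 1) ^ x = finRotate (k + 1) ^ (x % (k + 1)) := by
  ext i
  rw [finRotate_pow_val, finRotate_pow_val, Nat.add_mod_mod]

theorem rot_inv (k x : ℕ) : (finRotate (k + 1) ^ x)⁻¹ = finRotate (k + 1) ^ (x * k) := by
  rw [inv_eq_iff_mul_eq_one, ← pow_add]
  have : x + x * k = x * (k + 1) := by ring
  rw [rot_mod, this, Nat.mul_mod_left, pow_zero]

theorem mem_rotSet (k : ℕ) (A : Set (Equiv.Perm (Fin (k + 1)))) (τ : Equiv.Perm (Fin (k + 1))) :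
    τ ∈ rotSet A ↔ ∃ j : ℕ, ∃ π ∈ A, τ = finRotate (k + 1) ^ j * π := by
  classical
  rw [rotSet, mem_filter]
  constructor
  · rintro ⟨-, j, -, π, h1, h2⟩
    exact ⟨j, π, h1, h2⟩
  · rintro ⟨j, π, h1, h2⟩
    exact ⟨mem_univ _, j % (k + 1), Nat.mod_lt _ (Nat.succ_pos k), π, h1, by rw [← rot_mod, h2]⟩

theorem mem_rotSet_mul (k j : ℕ) (A : Set (Equiv.Perm (Fin (k + 1))))
    (τ : Equiv.Perm (Fin (k + 1))) :
    (finRotate (k + 1) ^ j)⁻¹ * τ ∈ rotSet A ↔ τ ∈ rotSet A := by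
  rw [mem_rotSet, mem_rotSet]
  constructor
  · rintro ⟨i, π, h1, h2⟩
    refine ⟨j + i, π, h1, ?_⟩
    rw [pow_add, mul_assoc, ← h2, mul_inv_cancel_left]
  · rintro ⟨i, π, h1, h2⟩
    refine ⟨j * k + i, π, h1, ?_⟩
    rw [rot_inv, pow_add, mul_assoc, h2]

theorem card_rot_last' (k : ℕ) (p : Fin (k + 1)) :
    ((range (k + 1)).filter fun j => (finRotate (k + 1) ^ j)⁻¹ p = Fin.last k).card = 1 := by
  rw [Finset.card_eq_one]
  refine ⟨(p.val + 1) % (k + 1), ?_⟩
  ext j
  rw [mem_filter, mem_range, mem_singleton, Equiv.Perm.inv_eq_iff_eq, Fin.ext_iff,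
    finRotate_pow_val, Fin.val_last]
  have hp := p.isLt
  have e : ∀ j, j < k + 1 → (k + j) % (k + 1) = if j = 0 then k else j - 1 := by
    intro j hj
    split_ifs with h
    · rw [h, add_zero, Nat.mod_eq_of_lt (Nat.lt_succ_self k)]
    · rw [Nat.mod_eq_sub_mod (by omega), Nat.mod_eq_of_lt (by omega)]
      omega
  have e' : (p.val + 1) % (k + 1) = if p.val = k then 0 else p.val + 1 := by
    split_ifs with h
    · rw [h, Nat.mod_self]
    · rw [Nat.mod_eq_of_lt (by omega)]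
  rw [e']
  constructor
  · rintro ⟨hj, h⟩
    rw [e j hj] at h
    split_ifs at h ⊢ <;> omega
  · intro h
    have hj : j < k + 1 := by
      split_ifs at h <;> omega
    refine ⟨hj, ?_⟩
    rw [e j hj]
    split_ifs at h ⊢ <;> omega

/-! ### A set of permutations closed under rotations -/

/-- Membership of the permutations which fix the last element depends only on the descents of
the inverse. -/
def DesInv (k : ℕ) (A : Finset (Equiv.Perm (Fin (k + 1)))) : Prop :=
  ∀ σ σ' : Equiv.Perm (Fin (k + 1)), σ (Fin.last k) = Fin.last k → σ' (Fin.last k) = Fin.last k →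
    Des σ⁻¹ = Des σ'⁻¹ → σ ∈ A → σ' ∈ A

open Classical in
/-- the sets of descents of the inverses -/
noncomputable def DD (k : ℕ) (A : Finset (Equiv.Perm (Fin (k + 1)))) : Finset (Finset ℕ) :=
  (A.filter fun u => u (Fin.last k) = Fin.last k).image fun u => Des u⁻¹

theorem notMem_DD (k : ℕ) (A : Finset (Equiv.Perm (Fin (k + 1)))) (J : Finset ℕ) (hJ : J ∈ DD k A) :
    k ∉ J := by
  classical
  rw [DD, mem_image] at hJ
  obtain ⟨u, hu, rfl⟩ := hJ
  apply last_notMem_des
  rw [Equiv.Perm.inv_eq_iff_eq]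
  exact (mem_filter.1 hu).2.symm

open Classical in
theorem count_invDesExt (k : ℕ) (J : Finset ℕ) (σ : Equiv.Perm (Fin (k + 1))) :
    (invDesExt k J).count σ = if σ (Fin.last k) = Fin.last k ∧ Des σ⁻¹ = J then 1 else 0 := by
  have h1 : σ ∈ invDesExt k J ↔ σ (Fin.last k) = Fin.last k ∧ Des σ⁻¹ = J := by
    rw [← mem_invDesExt, invDesExt, Finset.mem_val, mem_filter]
    exact and_iff_right (mem_univ _)
  split_ifs with h
  · exact Multiset.count_eq_one_of_mem (Finset.nodup _) (h1.2 h)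
  · exact Multiset.count_eq_zero_of_notMem fun h2 => h (h1.1 h2)

theorem count_rotSet (k : ℕ) (B : Set (Equiv.Perm (Fin (k + 1))))
    (hA : DesInv k (rotSet B)) (τ : Equiv.Perm (Fin (k + 1))) :
    ∑ J ∈ DD k (rotSet B), (prodM (rot (k + 1)) (invDesExt k J)).count τ =
      (rotSet B).val.count τ := by
  classical
  have h1 : ∀ J, (prodM (rot (k + 1)) (invDesExt k J)).count τ =
      ∑ j ∈ range (k + 1), if ((finRotate (k + 1) ^ j)⁻¹ * τ) (Fin.last k) = Fin.last k ∧
        Des ((finRotate (k + 1) ^ j)⁻¹ * τ)⁻¹ = J then 1 else 0 := by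
    intro J
    rw [count_prodM, rot, Multiset.map_map]
    simp only [Function.comp_apply, count_invDesExt]
    rfl
  simp_rw [h1]
  rw [Finset.sum_comm]
  have h2 : ∀ j ∈ range (k + 1), (∑ J ∈ DD k (rotSet B),
      if ((finRotate (k + 1) ^ j)⁻¹ * τ) (Fin.last k) = Fin.last k ∧
        Des ((finRotate (k + 1) ^ j)⁻¹ * τ)⁻¹ = J then 1 else 0) =
      if (finRotate (k + 1) ^ j)⁻¹ (τ (Fin.last k)) = Fin.last k then
        (if τ ∈ rotSet B then 1 else 0) else 0 := by
    intro j _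
    have e : ((finRotate (k + 1) ^ j)⁻¹ * τ) (Fin.last k) =
      (finRotate (k + 1) ^ j)⁻¹ (τ (Fin.last k)) := rfl
    rw [e]
    by_cases h : (finRotate (k + 1) ^ j)⁻¹ (τ (Fin.last k)) = Fin.last k
    · rw [if_pos h]
      simp only [h, true_and]
      rw [Finset.sum_ite_eq]
      refine if_congr ?_ rfl rfl
      rw [← mem_rotSet_mul k j]
      rw [DD, mem_image]
      constructor
      · rintro ⟨u, hu, h3⟩
        rw [mem_filter] at hu
        exact hA u _ hu.2 h h3 hu.1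
      · intro h3
        exact ⟨_, mem_filter.2 ⟨h3, h⟩, rfl⟩
    · rw [if_neg h]
      refine Finset.sum_eq_zero fun J _ => ?_
      exact if_neg fun h3 => h h3.1
  rw [Finset.sum_congr rfl h2, ← Finset.sum_filter, Finset.sum_const, card_rot_last', one_smul]
  split_ifs with h
  · exact (Multiset.count_eq_one_of_mem (Finset.nodup _) h).symm
  · exact (Multiset.count_eq_zero_of_notMem h).symm

theorem QF_rotSet (k : ℕ) (B : Set (Equiv.Perm (Fin (k + 1)))) (hA : DesInv k (rotSet B)) :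
    QF (rotSet B).val = ∑ J ∈ DD k (rotSet B),
      (QF (invDes (k + 1) J) + QF (invDes (k + 1) (insert k J))) := by
  classical
  have h1 : ∀ J ∈ DD k (rotSet B), QF (invDes (k + 1) J) + QF (invDes (k + 1) (insert k J)) =
      QF (prodM (rot (k + 1)) (invDesExt k J)) := fun J hJ =>
    (QF_rot_eq k J (notMem_DD k _ J hJ)).symm
  rw [Finset.sum_congr rfl h1]
  ext m
  rw [map_sum]
  simp_rw [coeff_QF]
  rw [Finset.sum_comm]
  refine Finset.sum_congr rfl fun w _ => ?_
  rw [← count_rotSet k B hA]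
  push_cast
  rfl

/-! ### Grid classes -/

theorem grid_adj {k : ℕ} (v : Fin k → Bool) (n : ℕ) (π : Equiv.Perm (Fin n)) :
    π ∈ grid v n ↔ ∃ f : Fin n → Fin k, Monotone f ∧ ∀ a b : Fin n, b.val = a.val + 1 → f a = f b →
      if v (f a) = true then π.symm a < π.symm b else π.symm b < π.symm a := by
  constructor
  · rintro ⟨f, h1, h2⟩
    exact ⟨f, h1, fun a b hab => h2 a b (by rw [Fin.lt_def]; omega)⟩
  · rintro ⟨f, h1, h2⟩
    refine ⟨f, h1, ?_⟩
    intro a b hab hf
    obtain ⟨a, ha⟩ := a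
    obtain ⟨b, hb⟩ := b
    rw [Fin.mk_lt_mk] at hab
    obtain ⟨d, rfl⟩ : ∃ d, b = a + d + 1 := ⟨b - a - 1, by omega⟩
    induction d with
    | zero => exact h2 _ _ rfl hf
    | succ d ih =>
      have hb' : a + d + 1 < n := by omega
      have e1 : f ⟨a, ha⟩ ≤ f ⟨a + d + 1, hb'⟩ := h1 (by rw [Fin.mk_le_mk]; omega)
      have e2 : f ⟨a + d + 1, hb'⟩ ≤ f ⟨a + (d + 1) + 1, hb⟩ := h1 (by rw [Fin.mk_le_mk]; omega)
      have e3 : f ⟨a, ha⟩ = f ⟨a + d + 1, hb'⟩ := le_antisymm e1 (hf ▸ e2)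
      have e4 : f ⟨a + d + 1, hb'⟩ = f ⟨a + (d + 1) + 1, hb⟩ := e3 ▸ hf
      have h3 := ih hb' (by omega) e3
      have h4 := h2 ⟨a + d + 1, hb'⟩ ⟨a + (d + 1) + 1, hb⟩ rfl e4
      rw [← e3] at h4
      split_ifs at h3 h4 ⊢ with hv
      · exact h3.trans h4
      · exact h4.trans h3

theorem mem_des_iff {n : ℕ} (u : Equiv.Perm (Fin n)) (x y : Fin n) (h : y.val = x.val + 1) :
    u x < u y ↔ y.val ∉ Des u := by
  rw [Des, mem_filter, mem_Ioo]
  constructor
  · rintro h1 ⟨-, a, b, ha, hb, hlt⟩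
    obtain rfl : a = x := Fin.ext (by omega)
    obtain rfl : b = y := Fin.ext hb
    exact absurd h1 (not_lt.2 hlt.le)
  · intro h1
    by_contra h2
    have hne : u x ≠ u y := fun h3 => by
      have := congrArg Fin.val (u.injective h3)
      omega
    exact h1 ⟨⟨by omega, y.isLt⟩, x, y, by omega, rfl, lt_of_le_of_ne (not_lt.1 h2) hne.symm⟩

theorem cmp_eq (k : ℕ) (σ σ' : Equiv.Perm (Fin (k + 1))) (h : σ (Fin.last k) = Fin.last k)
    (h' : σ' (Fin.last k) = Fin.last k) (hd : Des σ⁻¹ = Des σ'⁻¹) (x y : Fin (k + 1))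
    (hxy : y.val = (x.val + 1) % (k + 1)) (hne : x ≠ y) :
    σ⁻¹ x < σ⁻¹ y ↔ σ'⁻¹ x < σ'⁻¹ y := by
  have hi : σ⁻¹ (Fin.last k) = Fin.last k := by rw [Equiv.Perm.inv_eq_iff_eq, h]
  have hi' : σ'⁻¹ (Fin.last k) = Fin.last k := by rw [Equiv.Perm.inv_eq_iff_eq, h']
  by_cases hx : x = Fin.last k
  · subst hx
    rw [hi, hi']
    constructor
    · intro h1
      exact absurd h1 (not_lt.2 (Fin.le_last _))
    · intro h1
      exact absurd h1 (not_lt.2 (Fin.le_last _))
  · have hxk : x.val < k := by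
      have := x.isLt
      have h2 : x.val ≠ k := fun h3 => hx (Fin.ext h3)
      omega
    rw [Nat.mod_eq_of_lt (by omega)] at hxy
    rw [mem_des_iff _ x y hxy, mem_des_iff _ x y hxy, hd]

theorem grid_desInv {l : ℕ} (v : Fin l → Bool) (k : ℕ) : DesInv k (rotSet (grid v (k + 1))) := by
  intro σ σ' h h' hd hσ
  rw [mem_rotSet] at hσ ⊢
  obtain ⟨j, π, hπ, rfl⟩ := hσ
  refine ⟨j, (finRotate (k + 1) ^ j)⁻¹ * σ', ?_, (mul_inv_cancel_left _ _).symm⟩
  rw [grid_adj] at hπ ⊢
  obtain ⟨f, h1, h2⟩ := hπ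
  refine ⟨f, h1, fun a b hab hf => ?_⟩
  have h3 := h2 a b hab hf
  have e1 : ∀ x, π.symm x = (finRotate (k + 1) ^ j * π)⁻¹ ((finRotate (k + 1) ^ j) x) := by
    intro x
    have h4 : (finRotate (k + 1) ^ j)⁻¹ ((finRotate (k + 1) ^ j) x) = x :=
      Equiv.symm_apply_apply _ x
    rw [mul_inv_rev, Equiv.Perm.mul_apply, h4]
    rfl
  have e2 : ∀ x, ((finRotate (k + 1) ^ j)⁻¹ * σ').symm x = σ'⁻¹ ((finRotate (k + 1) ^ j) x) := by
    intro x
    show ((finRotate (k + 1) ^ j)⁻¹ * σ')⁻¹ x = _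
    rw [mul_inv_rev, inv_inv]
    rfl
  rw [e1, e1] at h3
  rw [e2, e2]
  have hne : (finRotate (k + 1) ^ j) a ≠ (finRotate (k + 1) ^ j) b := by
    intro h4
    have := congrArg Fin.val ((finRotate (k + 1) ^ j).injective h4)
    omega
  have hval : ((finRotate (k + 1) ^ j) b).val = (((finRotate (k + 1) ^ j) a).val + 1) % (k + 1) := by
    rw [finRotate_pow_val, finRotate_pow_val, hab, Nat.mod_add_mod]
    congr 1
    omega
  have hc := cmp_eq k _ σ' h h' hd _ _ hval hne
  split_ifs at h3 ⊢ with hv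
  · exact hc.1 h3
  · refine lt_of_le_of_ne (not_lt.1 fun h4 => ?_) fun h4 => hne (σ'⁻¹.injective h4).symm
    exact absurd (hc.2 h4) (not_lt.2 h3.le)

/-! ### Schur positivity -/

theorem schurPos_rotSet (k : ℕ) (B : Set (Equiv.Perm (Fin (k + 1))))
    (hA : DesInv k (rotSet B)) : SchurPos (QF (rotSet B).val) := by
  classical
  refine ⟨YD (k + 1), fun l => ∑ J ∈ DD k (rotSet B),
    (Nat.card (LA (k + 1) J l) + Nat.card (LA (k + 1) (insert k J) l)), ?_⟩
  rw [QF_rotSet k B hA]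
  simp_rw [QF_invDes]
  push_cast
  simp_rw [Finset.sum_smul, add_smul]
  rw [Finset.sum_comm]
  refine Finset.sum_congr rfl fun J _ => ?_
  rw [← Finset.sum_add_distrib]

end Pool.Agent.R850.FG
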