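import Mathlib
import Pool.Agent.R850.FG.Grid

/-! # Symmetry of the quasisymmetric functions of inverse descent classes -/

set_option autoImplicit false

namespace Pool.Agent.R850.FG

open Finset Pool.Agent.R859.QS

section

variable {n : ℕ} (J : Finset ℕ) (N : ℕ)

theorem adj_iff_mono (w : Fin n → ℕ) (hw : ∀ i, w i < N) :
    adj J (· ≤ ·) w ↔ Monotone fun i => blk n J i * N + w i := by
  constructor
  · intro h
    apply monotone_of_succ
    intro i j hij
    by_cases hj : j.val ∈ J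
    · have h1 := (blk_lt_iff J i j hij).2 hj
      have h2 : blk n J i * N + N ≤ blk n J j * N := by
        have := Nat.mul_le_mul_right N (Nat.succ_le_of_lt h1)
        rwa [Nat.succ_mul] at this
      have h3 := hw i
      omega
    · have h1 : blk n J i = blk n J j := by
        refine le_antisymm (blk_mono J (by rw [Fin.le_def]; omega)) (not_lt.1 fun h2 => ?_)
        exact hj ((blk_lt_iff J i j hij).1 h2)
      have h2 := h i j hij hj
      rw [h1]
      exact Nat.add_le_add_left h2 _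
  · intro h i j hij hj
    have h1 : blk n J i = blk n J j := by
      refine le_antisymm (blk_mono J (by rw [Fin.le_def]; omega)) (not_lt.1 fun h2 => ?_)
      exact hj ((blk_lt_iff J i j hij).1 h2)
    have h2 : blk n J i * N + w i ≤ blk n J j * N + w j := h (by rw [Fin.le_def]; omega)
    rw [h1] at h2
    show w i ≤ w j
    omega

/-- sorting in the blocks -/
def bperm (u : Fin n → ℕ) : Equiv.Perm (Fin n) := Tuple.sort fun i => blk n J i * N + u i

theorem bperm_blk (u : Fin n → ℕ) (hu : ∀ i, u i < N) : blk n J ∘ bperm J N u = blk n J := by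
  apply monotone_unique _ _ _ (blk_mono J) (cont_comp_perm _ _)
  intro i j hij
  have h1 : blk n J (bperm J N u i) * N + u (bperm J N u i) ≤
      blk n J (bperm J N u j) * N + u (bperm J N u j) :=
    Tuple.monotone_sort (fun i => blk n J i * N + u i) hij
  show blk n J (bperm J N u i) ≤ blk n J (bperm J N u j)
  by_contra h
  have h2 : blk n J (bperm J N u j) * N + N ≤ blk n J (bperm J N u i) * N := by
    have := Nat.mul_le_mul_right N (Nat.succ_le_of_lt (not_le.1 h))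
    rwa [Nat.succ_mul] at this
  have h3 := hu (bperm J N u j)
  omega

theorem bperm_adj (u : Fin n → ℕ) (hu : ∀ i, u i < N) : adj J (· ≤ ·) (u ∘ bperm J N u) := by
  rw [adj_iff_mono J N (u ∘ bperm J N u) fun i => hu _]
  intro i j hij
  have h1 : blk n J (bperm J N u i) * N + u (bperm J N u i) ≤
      blk n J (bperm J N u j) * N + u (bperm J N u j) :=
    Tuple.monotone_sort (fun i => blk n J i * N + u i) hij
  have h2 := congrFun (bperm_blk J N u hu)
  have h3 : blk n J (bperm J N u i) = blk n J i := h2 i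
  have h4 : blk n J (bperm J N u j) = blk n J j := h2 j
  rw [h3, h4] at h1
  exact h1

theorem adj_unique (w : Fin n → ℕ) (hw : ∀ i, w i < N) (ρ : Equiv.Perm (Fin n))
    (hρ : blk n J ∘ ρ = blk n J) (h1 : adj J (· ≤ ·) w) (h2 : adj J (· ≤ ·) (w ∘ ρ)) :
    w ∘ ρ = w := by
  rw [adj_iff_mono J N _ hw] at h1
  rw [adj_iff_mono J N (w ∘ ρ) fun i => hw _] at h2
  have h3 : (fun i => blk n J i * N + (w ∘ ρ) i) = (fun i => blk n J i * N + w i) ∘ ρ := by
    funext i
    show _ = blk n J (ρ i) * N + w (ρ i)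
    have : blk n J (ρ i) = blk n J i := congrFun hρ i
    rw [this]
    rfl
  have h4 := monotone_unique _ _ h2 h1 (by rw [h3, cont_comp_perm])
  funext i
  have := congrFun h4 i
  omega

end

open Classical in
theorem sum_adj_perm (n : ℕ) (J : Finset ℕ) (σ : Equiv.Perm ℕ) (m : ℕ →₀ ℕ) :
    (∑ w ∈ W n (m.mapDomain σ), if adj J (· ≤ ·) w then (1 : ℤ) else 0) =
      ∑ w ∈ W n m, if adj J (· ≤ ·) w then (1 : ℤ) else 0 := by
  obtain ⟨N1, hN1⟩ := exists_bound (n := n) m
  obtain ⟨N2, hN2⟩ := exists_bound (n := n) (m.mapDomain σ)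
  have hb1 : ∀ w ∈ W n m, ∀ i, w i < N1 + N2 := fun w hw i => by
    have := hN1 w hw i
    omega
  have hb2 : ∀ w ∈ W n (m.mapDomain σ), ∀ i, w i < N1 + N2 := fun w hw i => by
    have := hN2 w hw i
    omega
  have hσ : ∀ w ∈ W n m, σ ∘ w ∈ W n (m.mapDomain σ) := by
    intro w hw
    rw [mem_W] at hw ⊢
    rw [cont_map, hw]
  have hσ' : ∀ w ∈ W n (m.mapDomain σ), σ.symm ∘ w ∈ W n m := by
    intro w hw
    rw [mem_W] at hw ⊢
    rw [cont_map, hw, ← Finsupp.mapDomain_comp]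
    simp
  rw [← Finset.sum_filter, ← Finset.sum_filter]
  symm
  refine Finset.sum_bij' (fun w _ => (σ ∘ w) ∘ bperm J (N1 + N2) (σ ∘ w))
    (fun w _ => (σ.symm ∘ w) ∘ bperm J (N1 + N2) (σ.symm ∘ w)) ?_ ?_ ?_ ?_ ?_
  · intro w hw
    rw [mem_filter] at hw ⊢
    refine ⟨?_, bperm_adj J _ _ (hb2 _ (hσ w hw.1))⟩
    rw [mem_W, cont_comp_perm, ← mem_W]
    exact hσ w hw.1
  · intro w hw
    rw [mem_filter] at hw ⊢
    refine ⟨?_, bperm_adj J _ _ (hb1 _ (hσ' w hw.1))⟩
    rw [mem_W, cont_comp_perm, ← mem_W]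
    exact hσ' w hw.1
  · intro w hw
    rw [mem_filter] at hw
    have h1 := hσ w hw.1
    set τ1 := bperm J (N1 + N2) (σ ∘ w) with hτ1
    have e1 : σ.symm ∘ ((σ ∘ w) ∘ τ1) = w ∘ τ1 := by
      funext i
      simp
    rw [e1]
    have h2 : w ∘ τ1 ∈ W n m := by
      rw [mem_W, cont_comp_perm, ← mem_W]
      exact hw.1
    have h3 := bperm_adj J (N1 + N2) (w ∘ τ1) (hb1 _ h2)
    have h4 := bperm_blk J (N1 + N2) (w ∘ τ1) (hb1 _ h2)
    have h5 := bperm_blk J (N1 + N2) (σ ∘ w) (hb2 _ h1)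
    set τ2 := bperm J (N1 + N2) (w ∘ τ1) with hτ2
    have e2 : (w ∘ τ1) ∘ τ2 = w ∘ (τ1 * τ2 : Equiv.Perm (Fin n)) := by
      funext i
      rfl
    rw [e2] at h3 ⊢
    refine adj_unique J (N1 + N2) w (hb1 w hw.1) _ ?_ hw.2 h3
    have e3 : blk n J ∘ (τ1 * τ2 : Equiv.Perm (Fin n)) = (blk n J ∘ τ1) ∘ τ2 := by
      funext i
      rfl
    rw [e3, h5, h4]
  · intro w hw
    rw [mem_filter] at hw
    have h1 := hσ' w hw.1
    set τ1 := bperm J (N1 + N2) (σ.symm ∘ w) with hτ1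
    have e1 : σ ∘ ((σ.symm ∘ w) ∘ τ1) = w ∘ τ1 := by
      funext i
      simp
    rw [e1]
    have h2 : w ∘ τ1 ∈ W n (m.mapDomain σ) := by
      rw [mem_W, cont_comp_perm, ← mem_W]
      exact hw.1
    have h3 := bperm_adj J (N1 + N2) (w ∘ τ1) (hb2 _ h2)
    have h4 := bperm_blk J (N1 + N2) (w ∘ τ1) (hb2 _ h2)
    have h5 := bperm_blk J (N1 + N2) (σ.symm ∘ w) (hb1 _ h1)
    set τ2 := bperm J (N1 + N2) (w ∘ τ1) with hτ2
    have e2 : (w ∘ τ1) ∘ τ2 = w ∘ (τ1 * τ2 : Equiv.Perm (Fin n)) := by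
      funext i
      rfl
    rw [e2] at h3 ⊢
    refine adj_unique J (N1 + N2) w (hb2 w hw.1) _ ?_ hw.2 h3
    have e3 : blk n J ∘ (τ1 * τ2 : Equiv.Perm (Fin n)) = (blk n J ∘ τ1) ∘ τ2 := by
      funext i
      rfl
    rw [e3, h5, h4]
  · intro w _
    rfl

theorem isSymm_invDes (n : ℕ) (J : Finset ℕ) : IsSymm (QF (invDes n J)) := by
  classical
  intro σ m
  refine eq_of_sum_subset
    (fun J => MvPowerSeries.coeff (m.mapDomain σ) (QF (invDes n J)))
    (fun J => MvPowerSeries.coeff m (QF (invDes n J))) (fun J => ?_) J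
  rw [sum_coeff_invDes, sum_coeff_invDes, sum_adj_perm]

theorem isSymm_rotSet (k : ℕ) (B : Set (Equiv.Perm (Fin (k + 1))))
    (hA : DesInv k (rotSet B)) : IsSymm (QF (rotSet B).val) := by
  classical
  intro σ m
  rw [QF_rotSet k B hA, map_sum, map_sum]
  refine Finset.sum_congr rfl fun J _ => ?_
  rw [map_add, map_add, isSymm_invDes, isSymm_invDes]

theorem fine_grid {l : ℕ} (v : Fin l → Bool) (n : ℕ) (hn : 1 ≤ n) :
    Fine (rotSet (grid v n)) := by
  obtain ⟨k, rfl⟩ : ∃ k, n = k + 1 := ⟨n - 1, by omega⟩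
  exact ⟨isSymm_rotSet k _ (grid_desInv v k), schurPos_rotSet k _ (grid_desInv v k)⟩

end Pool.Agent.R850.FG
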